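import Pool.Agent.V8H50.JTB.Main
import Pool.Agent.R277.JT.Compl

/-!
# Passing to the completion (helper file for MP_245e03_an, Q2)
-/

set_option autoImplicit false
set_option linter.unusedSectionVars false

open Set Filter Topology

namespace Pool.Agent.V8H50.JTB

open Pool.Agent.R277.JT UniformSpace

/-- The dual of the completion of the finitely supported functions. -/
abbrev DC : Type _ := StrongDual ℝ (Completion (Pre Tree))

lemma eT_symm_apply (f : D Tree) (x : Pre Tree) : eT.symm f (x : Completion (Pre Tree)) = f x := by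
  have h1 : eT (eT.symm f) = f := eT.apply_symm_apply f
  have h2 : eT (eT.symm f) x = (eT.symm f) (x : Completion (Pre Tree)) := rfl
  rw [← h2, h1]

/-- The closed span of the biorthogonal functionals. -/
noncomputable def BB : Submodule ℝ DC :=
  (Submodule.span ℝ (range fun a => eT.symm (bio a))).topologicalClosure

/-- extension of a densely defined isomorphic embedding -/
lemma ext_lemma {V E F : Type*} [AddCommGroup V] [Module ℝ V] [NormedAddCommGroup E]
    [NormedSpace ℝ E] [NormedAddCommGroup F] [NormedSpace ℝ F] [CompleteSpace F]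
    (e : V →ₗ[ℝ] E) (f : V →ₗ[ℝ] F) (hd : DenseRange e) {C c : ℝ} (hup : ∀ w, ‖f w‖ ≤ C * ‖e w‖)
    (hlow : ∀ w, c * ‖e w‖ ≤ ‖f w‖) : ∃ T : E →L[ℝ] F, ∀ g, c * ‖g‖ ≤ ‖T g‖ := by
  let T : E →L[ℝ] F := f.extendOfNorm e
  have hT : ∀ w, T (e w) = f w := fun w => LinearMap.extendOfNorm_eq hd ⟨C, hup⟩ w
  refine ⟨T, fun g => ?_⟩
  refine hd.induction_on (p := fun g => c * ‖g‖ ≤ ‖T g‖) g ?_ ?_
  · exact isClosed_le (continuous_const.mul continuous_norm) T.continuous.norm
  · intro w
    rw [hT]
    exact hlow w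

theorem pack (Y : Submodule ℝ DC) (hYc : IsClosed (Y : Set DC))
    (hY : ¬ TopologicalSpace.SeparableSpace Y) :
    ∃ Z : Submodule ℝ Y, IsClosed (Z : Set Y) ∧ Nonempty (Z ≃L[ℝ] BB) := by
  classical
  have hYs : ¬ TopologicalSpace.IsSeparable (Y : Set DC) := fun h => hY h.separableSpace
  have hR : ¬ TopologicalSpace.IsSeparable
      (Y.map (eT.toLinearEquiv : DC →ₗ[ℝ] D Tree) : Set (D Tree)) := by
    intro h
    apply hYs
    have h1 := h.image eT.symm.continuous
    refine h1.mono ?_
    intro f hf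
    exact ⟨eT f, ⟨f, hf, rfl⟩, eT.symm_apply_apply f⟩
  obtain ⟨z, C, hz, hzC⟩ := main hR
  have hzY : ∀ a, eT.symm (z a) ∈ Y := by
    intro a
    obtain ⟨f, hf, hfz⟩ := hz a
    have h1 : eT f = z a := hfz
    rw [← h1, eT.symm_apply_apply]
    exact hf
  have hcY : CompleteSpace Y := hYc.completeSpace_coe
  have hBc : IsClosed (BB : Set DC) := Submodule.isClosed_topologicalClosure _
  have hcB : CompleteSpace BB := hBc.completeSpace_coe
  have hbB : ∀ a, eT.symm (bio a) ∈ BB := fun a =>
    Submodule.le_topologicalClosure _ (Submodule.subset_span (mem_range_self a))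
  let e : (Tree →₀ ℝ) →ₗ[ℝ] BB := Finsupp.linearCombination ℝ
    (fun a => (⟨eT.symm (bio a), hbB a⟩ : BB))
  let f : (Tree →₀ ℝ) →ₗ[ℝ] Y := Finsupp.linearCombination ℝ
    (fun a => (⟨eT.symm (z a), hzY a⟩ : Y))
  have he : ∀ w, ((e w : BB) : DC) = eT.symm (w.sum fun a t => t • bio a) := by
    intro w
    change ((Finsupp.linearCombination ℝ (fun a => (⟨eT.symm (bio a), hbB a⟩ : BB)) w : BB) : DC) = _
    rw [Finsupp.linearCombination_apply, Finsupp.sum, Finsupp.sum, map_sum]
    rw [Submodule.coe_sum]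
    apply Finset.sum_congr rfl
    intro a _
    rw [map_smul]
    rfl
  have hf : ∀ w, ((f w : Y) : DC) = eT.symm (w.sum fun a t => t • z a) := by
    intro w
    change ((Finsupp.linearCombination ℝ (fun a => (⟨eT.symm (z a), hzY a⟩ : Y)) w : Y) : DC) = _
    rw [Finsupp.linearCombination_apply, Finsupp.sum, Finsupp.sum, map_sum]
    rw [Submodule.coe_sum]
    apply Finset.sum_congr rfl
    intro a _
    rw [map_smul]
    rfl
  have hen : ∀ w, ‖e w‖ = ‖w.sum fun a t => t • bio a‖ := by
    intro w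
    rw [← eT.symm.norm_map, ← he]
    rfl
  have hfn : ∀ w, ‖f w‖ = ‖w.sum fun a t => t • z a‖ := by
    intro w
    rw [← eT.symm.norm_map, ← hf]
    rfl
  have hdense : DenseRange e := by
    intro x
    rw [closure_subtype]
    have hx : (x : DC) ∈ closure ((Submodule.span ℝ (range fun a => eT.symm (bio a)) :
        Submodule ℝ DC) : Set DC) := by
      have := x.2
      unfold BB at this
      exact this
    refine closure_mono ?_ hx
    intro g hg
    obtain ⟨w, hw⟩ := (Finsupp.mem_span_range_iff_exists_finsupp).1 hg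
    refine ⟨e w, mem_range_self w, ?_⟩
    rw [← hw]
    change ((e w : BB) : DC) = _
    rw [he, Finsupp.sum, Finsupp.sum, map_sum]
    exact Finset.sum_congr rfl fun a _ => by rw [map_smul]
  have hup : ∀ w, ‖f w‖ ≤ C * ‖e w‖ := fun w => by rw [hfn, hen]; exact (hzC w).2
  have hlow : ∀ w, 1 / 2 * ‖e w‖ ≤ ‖f w‖ := fun w => by rw [hfn, hen]; exact (hzC w).1
  obtain ⟨T, hT⟩ := ext_lemma (V := Tree →₀ ℝ) (E := BB) (F := Y) e f hdense (C := C) (c := 1 / 2) hup hlow
  exact range_of_bound T (c := 1 / 2) (by norm_num) hT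

end Pool.Agent.V8H50.JTB
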