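import Pool.Agent.R277.JT.Lower

/-!
# Preliminaries on non-separable subspaces of the dual of the James tree space
(helper file for MP_245e03_an, Q2)
-/

set_option autoImplicit false
set_option linter.unusedSectionVars false

open Set Filter Topology

namespace Pool.Agent.V8H50.JTB

open Pool.Agent.R277.JT

instance : Countable Tree := inferInstanceAs (Countable (List Bool))

/-- The coordinate functional, as a linear map. -/
noncomputable def bioL (i : Tree) : Pre Tree →ₗ[ℝ] ℝ where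
  toFun x := x.val i
  map_add' x y := val_add x y i
  map_smul' c x := by rw [val_smul]; simp

/-- The coordinate functional `x ↦ x i` (the biorthogonal functional of the unit vector at `i`). -/
noncomputable def bio (i : Tree) : D Tree :=
  (bioL i).mkContinuous 1 (fun x => by rw [one_mul]; exact val_le x i)

lemma bio_apply (i : Tree) (x : Pre Tree) : bio i x = x.val i := rfl

open Classical in
lemma bio_ev (i j : Tree) : bio i (ev j) = if j = i then 1 else 0 := by
  rw [bio_apply, val_ev]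

/-- The linear span of the coordinate functionals. -/
noncomputable def B0 : Submodule ℝ (D Tree) := Submodule.span ℝ (range bio)

lemma bio_mem (i : Tree) : bio i ∈ B0 := Submodule.subset_span (mem_range_self i)

lemma cut_lo_eq (f : D Tree) (k : ℕ) :
    cut f (lo Tree k) = ∑ i ∈ (Lev.fin (I := Tree) k).toFinset, f (ev i) • bio i := by
  classical
  apply D_ext
  intro j
  rw [_root_.sum_apply]
  simp_rw [_root_.smul_apply, bio_ev, smul_eq_mul, mul_ite, mul_one, mul_zero]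
  rw [Finset.sum_ite_eq]
  have hm : j ∈ (Lev.fin (I := Tree) k).toFinset ↔ j ∈ lo Tree k := Set.Finite.mem_toFinset _
  by_cases h : j ∈ lo Tree k
  · rw [if_pos (hm.2 h), cut_ev f h]
  · rw [if_neg (fun h' => h (hm.1 h')), cut_ev_not f h]

lemma cut_lo_mem (f : D Tree) (k : ℕ) : cut f (lo Tree k) ∈ B0 := by
  rw [cut_lo_eq]
  exact Submodule.sum_mem _ fun i _ => Submodule.smul_mem _ _ (bio_mem i)

lemma B0_sep : TopologicalSpace.IsSeparable (B0 : Set (D Tree)) :=
  (countable_range bio).isSeparable.span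

/-- approximation of functionals -/
lemma approx (f : D Tree) {ε : ℝ} (hε : 0 < ε) :
    ∃ (F : Finset (ℕ → Bool)) (g : D Tree), g ∈ B0 ∧
      ‖f - g - ∑ c ∈ F, Lm (br c) f • sg (br c) 0‖ ≤ ε := by
  obtain ⟨F, hF⟩ := structA f hε
  obtain ⟨k, hk⟩ := hF F le_rfl
  have hk := hk k le_rfl
  refine ⟨F, cut (f - ∑ c ∈ F, Lm (br c) f • sg (br c) 0) (lo Tree k), cut_lo_mem _ _, ?_⟩
  have h1 := cut_lo_add (f - ∑ c ∈ F, Lm (br c) f • sg (br c) 0) k
  have h2 : f - cut (f - ∑ c ∈ F, Lm (br c) f • sg (br c) 0) (lo Tree k) -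
      ∑ c ∈ F, Lm (br c) f • sg (br c) 0 =
      cut (f - ∑ c ∈ F, Lm (br c) f • sg (br c) 0) (lv Tree k) := by
    have h3 := h1
    rw [← eq_sub_iff_add_eq'] at h3
    rw [h3]
    abel
  rw [h2, cut_sub, cut_sum_sg _ _ (Nat.zero_le k)]
  exact hk

/-- pigeonhole for maps to separable metric spaces -/
lemma pigeon {ι X : Type*} [PseudoMetricSpace X] {A : Set ι} (hA : ¬ A.Countable) (Φ : ι → X)
    {S : Set X} (hS : TopologicalSpace.IsSeparable S) (hΦ : ∀ c ∈ A, Φ c ∈ S) {ρ : ℝ}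
    (hρ : 0 < ρ) : ∃ c0 ∈ A, ¬ {c ∈ A | dist (Φ c) (Φ c0) < ρ}.Countable := by
  obtain ⟨t, ht, hSt⟩ := hS
  have h1 : A ⊆ ⋃ s ∈ t, {c ∈ A | dist (Φ c) s < ρ / 2} := by
    intro c hc
    obtain ⟨s, hs1, hs2⟩ := Metric.mem_closure_iff.1 (hSt (hΦ c hc)) (ρ / 2) (by positivity)
    exact mem_iUnion₂.2 ⟨s, hs1, hc, hs2⟩
  have h2 : ∃ s ∈ t, ¬ {c ∈ A | dist (Φ c) s < ρ / 2}.Countable := by
    by_contra hcon
    push Not at hcon
    exact hA ((ht.biUnion hcon).mono h1)
  obtain ⟨s, hs, h3⟩ := h2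
  have h4 : {c ∈ A | dist (Φ c) s < ρ / 2}.Nonempty := by
    by_contra hcon
    rw [not_nonempty_iff_eq_empty] at hcon
    exact h3 (hcon ▸ countable_empty)
  obtain ⟨c0, hc0, hc0'⟩ := h4
  refine ⟨c0, hc0, fun hcon => h3 (hcon.mono ?_)⟩
  rintro c ⟨hc, hc'⟩
  refine ⟨hc, ?_⟩
  have := dist_triangle_right (Φ c) (Φ c0) s
  linarith

/-- non-condensation points are countable -/
lemma condens {ι P : Type*} [Countable P] (A : Set ι) (π : ι → P) :
    {c ∈ A | {c' ∈ A | π c' = π c}.Countable}.Countable := by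
  classical
  have h1 : {c ∈ A | {c' ∈ A | π c' = π c}.Countable} ⊆
      ⋃ p : P, {c' ∈ A | π c' = p ∧ {c'' ∈ A | π c'' = p}.Countable} := by
    rintro c ⟨hc, hc'⟩
    exact mem_iUnion.2 ⟨π c, hc, rfl, hc'⟩
  refine (countable_iUnion fun p => ?_).mono h1
  by_cases h : {c'' ∈ A | π c'' = p}.Countable
  · refine h.mono ?_
    rintro c ⟨hc1, hc2, -⟩
    exact ⟨hc1, hc2⟩
  · have : {c' ∈ A | π c' = p ∧ {c'' ∈ A | π c'' = p}.Countable} = ∅ := by
      ext c
      simp [h]
    rw [this]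
    exact countable_empty

/-- The uncountable family of branches. -/
theorem family {R : Submodule ℝ (D Tree)}
    (hR : ¬ TopologicalSpace.IsSeparable (R : Set (D Tree))) :
    ∃ (A : Set (ℕ → Bool)) (y : (ℕ → Bool) → D Tree) (M : ℝ), ¬ A.Countable ∧ 0 < M ∧
      ∀ c ∈ A, y c ∈ R ∧ ‖y c‖ ≤ M ∧ Lm (br c) (y c) = 1 := by
  classical
  set Γ : Set (ℕ → Bool) := {c | ∃ f ∈ R, Lm (br c) f ≠ 0} with hΓ
  have h1 : ¬ Γ.Countable := by
    intro hcount
    apply hR
    set G : Set (D Tree) := range bio ∪ (fun c => sg (br c) 0) '' Γ with hG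
    have hGs : TopologicalSpace.IsSeparable (Submodule.span ℝ G : Set (D Tree)) :=
      ((countable_range bio).union (hcount.image _)).isSeparable.span
    refine hGs.closure.mono ?_
    intro f hf
    rw [Metric.mem_closure_iff]
    intro ε hε
    obtain ⟨F, g, hg, hfg⟩ := approx f (half_pos hε)
    refine ⟨g + ∑ c ∈ F, Lm (br c) f • sg (br c) 0, ?_, ?_⟩
    · apply Submodule.add_mem
      · exact Submodule.span_mono subset_union_left hg
      · apply Submodule.sum_mem
        intro c _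
        by_cases hc : Lm (br c) f = 0
        · rw [hc, zero_smul]; exact Submodule.zero_mem _
        · have hcΓ : c ∈ Γ := ⟨f, hf, hc⟩
          exact Submodule.smul_mem _ _ (Submodule.subset_span
            (Or.inr (mem_image_of_mem (fun c => sg (br c) 0) hcΓ)))
    · rw [dist_eq_norm, ← sub_sub]
      linarith
  have h2 : ∀ c ∈ Γ, ∃ f ∈ R, Lm (br c) f = 1 := by
    rintro c ⟨f, hf, hc⟩
    refine ⟨(Lm (br c) f)⁻¹ • f, R.smul_mem _ hf, ?_⟩
    rw [Lm_smul, inv_mul_cancel₀ hc]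
  choose! y hy1 hy2 using h2
  have h3 : Γ ⊆ ⋃ n : ℕ, {c ∈ Γ | ‖y c‖ ≤ n} := by
    intro c hc
    obtain ⟨n, hn⟩ := exists_nat_ge ‖y c‖
    exact mem_iUnion.2 ⟨n, hc, hn⟩
  have h4 : ∃ n : ℕ, ¬ {c ∈ Γ | ‖y c‖ ≤ n}.Countable := by
    by_contra hcon
    push Not at hcon
    exact h1 ((countable_iUnion hcon).mono h3)
  obtain ⟨n, hn⟩ := h4
  refine ⟨{c ∈ Γ | ‖y c‖ ≤ n}, y, n + 1, hn, by positivity, ?_⟩
  rintro c ⟨hc, hc'⟩
  exact ⟨hy1 c hc, by linarith, hy2 c hc⟩

end Pool.Agent.V8H50.JTB
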