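import Pool.Agent.V8H50.JTB.Upper

/-!
# Order embeddings of the dyadic tree (helper file for MP_245e03_an, Q2)
-/

set_option autoImplicit false
set_option linter.unusedSectionVars false

open Set Filter Topology

namespace Pool.Agent.V8H50.JTB

open Pool.Agent.R277.JT

/-- push-forward of finitely supported functions -/
noncomputable def pushTL (g : Tree → Tree) : Pre Tree →ₗ[ℝ] Pre Tree :=
  (show (Tree →₀ ℝ) →ₗ[ℝ] (Tree →₀ ℝ) from Finsupp.lmapDomain ℝ ℝ g)

lemma pushTL_val {g : Tree → Tree} (hg : Function.Injective g) (x : Pre Tree) (l : Tree) :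
    (pushTL g x).val (g l) = x.val l := Finsupp.mapDomain_apply hg _ _

lemma pushTL_val_not {g : Tree → Tree} (x : Pre Tree) {i : Tree} (hi : i ∉ range g) :
    (pushTL g x).val i = 0 := Finsupp.mapDomain_of_notMem_range _ _ hi

lemma pushTL_ev (g : Tree → Tree) (l : Tree) : pushTL g (ev l) = ev (g l) := by
  change Finsupp.mapDomain g (Finsupp.single l (1:ℝ)) = Finsupp.single (g l) (1:ℝ)
  exact Finsupp.mapDomain_single

lemma emb_inj {g : Tree → Tree} (hg : ∀ a b, g a ≤ g b ↔ a ≤ b) : Function.Injective g := by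
  intro a b hab
  exact le_antisymm ((hg a b).1 hab.le) ((hg b a).1 hab.ge)

lemma norm_pushTL_le {g : Tree → Tree} (hg : ∀ a b, g a ≤ g b ↔ a ≤ b) (x : Pre Tree) :
    ‖pushTL g x‖ ≤ ‖x‖ := by
  classical
  have hinj := emb_inj hg
  have h := sum_sq_abs ({()} : Finset Unit) (fun _ => pushTL g x) x
    (fun _ S => S.preimage g hinj.injOn) ?_ ?_ ?_ ?_
  · rw [Finset.sum_singleton] at h
    exact le_of_sq_le_sq h (norm_nonneg x)
  · rintro - - S ⟨a, c, hac, hm⟩ hne
    obtain ⟨m, hm1, hm2⟩ := (S.preimage g hinj.injOn).exists_minimal hne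
    obtain ⟨M, hM1, hM2⟩ := (S.preimage g hinj.injOn).exists_maximal hne
    have hmem : ∀ b, b ∈ S.preimage g hinj.injOn ↔ a ≤ g b ∧ g b ≤ c := by
      intro b
      rw [Finset.mem_preimage, hm]
    have hcomp : ∀ b ∈ S.preimage g hinj.injOn, ∀ b' ∈ S.preimage g hinj.injOn,
        b ≤ b' ∨ b' ≤ b := by
      intro b hb b' hb'
      rw [hmem] at hb hb'
      rcases Forest.comp (g b) (g b') c hb.2 hb'.2 with h | h
      · exact Or.inl ((hg _ _).1 h)
      · exact Or.inr ((hg _ _).1 h)
    have hmin : ∀ b ∈ S.preimage g hinj.injOn, m ≤ b := by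
      intro b hb
      rcases hcomp m hm1 b hb with h | h
      · exact h
      · exact hm2 hb h
    have hmax : ∀ b ∈ S.preimage g hinj.injOn, b ≤ M := by
      intro b hb
      rcases hcomp M hM1 b hb with h | h
      · exact hM2 hb h
      · exact h
    refine ⟨m, M, hmin M hM1, fun b => ⟨fun hb => ⟨hmin b hb, hmax b hb⟩, ?_⟩⟩
    rintro ⟨h1, h2⟩
    rw [hmem]
    exact ⟨((hmem m).1 hm1).1.trans ((hg _ _).2 h1), ((hg _ _).2 h2).trans ((hmem M).1 hM1).2⟩
  · rintro - - S -
    unfold ss
    rw [← Finset.sum_preimage g S hinj.injOn]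
    · exact Finset.sum_congr rfl fun l _ => pushTL_val hinj x l
    · intro i _ hi
      exact pushTL_val_not x hi
  · rintro - - S S' - - hdis
    rw [Finset.disjoint_left] at hdis ⊢
    intro l h1 h2
    rw [Finset.mem_preimage] at h1 h2
    exact hdis h1 h2
  · rintro i - j - hij
    exact absurd rfl hij

/-- push-forward as a continuous linear map -/
noncomputable def pushT (g : Tree → Tree) (hg : ∀ a b, g a ≤ g b ↔ a ≤ b) :
    Pre Tree →L[ℝ] Pre Tree :=
  (pushTL g).mkContinuous 1 (fun x => by rw [one_mul]; exact norm_pushTL_le hg x)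

lemma pushT_ev (g : Tree → Tree) (hg : ∀ a b, g a ≤ g b ↔ a ≤ b) (l : Tree) :
    pushT g hg (ev l) = ev (g l) := pushTL_ev g l

lemma norm_comp_pushT_le (g : Tree → Tree) (hg : ∀ a b, g a ≤ g b ↔ a ≤ b) (f : D Tree) :
    ‖f.comp (pushT g hg)‖ ≤ ‖f‖ := by
  apply ContinuousLinearMap.opNorm_le_bound _ (norm_nonneg _)
  intro x
  exact (f.le_opNorm _).trans (mul_le_mul_of_nonneg_left (norm_pushTL_le hg x) (norm_nonneg _))

/-- the embedding given by a family of branches -/
noncomputable def emb (C : ℕ → (ℕ → Bool)) (K : ℕ → ℕ) (a : Tree) : Tree :=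
  br (C (idx a)) (K (idx a))

lemma emb_le {C : ℕ → (ℕ → Bool)} {K : ℕ → ℕ} (h : Thr (fun _ t => C t) {0} K 0) (a b : Tree) :
    emb C K a ≤ emb C K b ↔ a ≤ b := by
  have hj : (0:ℕ) ∈ ({0} : Finset ℕ) := Finset.mem_singleton_self 0
  obtain ⟨c, hc⟩ := exists_br b
  have hb : idx b = nu c (lev b + 1) := by rw [nu_succ, hc]
  constructor
  · intro hab
    have h1 : K (idx a) ≤ K (idx b) := by
      have := lev_mono hab
      unfold emb at this
      rwa [IsBr.lev_eq, IsBr.lev_eq] at this
    have h1' : idx a ≤ idx b := h.mono.le_iff_le.1 h1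
    have h2 : br (C (idx a)) (K (idx a)) = br (C (idx b)) (K (idx a)) := by
      unfold emb at hab
      have := IsBr.eq_of_le (σ := br (C (idx b))) hab
      rwa [IsBr.lev_eq] at this
    -- the last ancestor of `b` with number at most that of `a`
    obtain ⟨i, hi1, hi2, hi3⟩ : ∃ i, i ≤ lev b + 1 ∧ nu c i ≤ idx a ∧
        ∀ i', i' ≤ lev b + 1 → nu c i' ≤ idx a → i' ≤ i := by
      obtain ⟨i, hi, hi'⟩ := (Finset.range (lev b + 2)).filter (fun i => nu c i ≤ idx a)
        |>.exists_max_image id ⟨0, by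
          rw [Finset.mem_filter, Finset.mem_range]
          exact ⟨by omega, by rw [nu_zero]; exact Nat.zero_le _⟩⟩
      rw [Finset.mem_filter, Finset.mem_range] at hi
      refine ⟨i, by omega, hi.2, fun i' h3 h4 => hi' i' ?_⟩
      rw [Finset.mem_filter, Finset.mem_range]
      exact ⟨by omega, h4⟩
    rcases hi2.eq_or_lt with h3 | h3
    · have hpos := idx_pos a
      obtain ⟨i', rfl⟩ : ∃ i', i = i' + 1 := by
        refine ⟨i - 1, ?_⟩
        rcases Nat.eq_zero_or_pos i with rfl | h4
        · rw [nu_zero] at h3; omega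
        · omega
      rw [nu_succ] at h3
      have h4 := idx_inj h3
      rw [← h4, ← hc]
      exact IsBr.mono (by omega)
    · exfalso
      have h4 : i < lev b + 1 := by
        rcases hi1.eq_or_lt with h5 | h5
        · exfalso
          rw [h5, ← hb] at h3
          omega
        · exact h5
      have h5 : idx a < nu c (i + 1) := by
        by_contra hcon
        have := hi3 (i + 1) (by omega) (not_lt.1 hcon)
        omega
      have h6 := agree_base h (c := c) (m := i) (n := lev b + 1) h4 (anc_root _) hj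
      rw [← hb] at h6
      have h7 := br_eq_of h6 (h.mono.monotone (show idx a ≤ nu c (i + 1) - 1 by omega))
      have h8 := h.ne (idx a) (nu c i) (anc_root _) (anc_root _) 0 hj 0 hj (Or.inl h3.ne')
        (K (idx a)) le_rfl (h.mono.monotone hi2)
      exact h8 (h2.trans h7)
  · intro hab
    have ha : a = br c (lev a) := IsBr.eq_of_le (σ := br c) (n := lev b) (by rw [hc]; exact hab)
    have ha' : idx a = nu c (lev a + 1) := by rw [nu_succ, ← ha]
    have hl := lev_mono hab
    have h1 := agree_nu h (c := c) (m := lev a + 1) (n := lev b + 1) (by omega) (anc_root _) hj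
    rw [← ha', ← hb] at h1
    change br (C (idx a)) (K (idx a)) ≤ br (C (idx b)) (K (idx b))
    have h1' : br (C (idx b)) (K (idx a)) = br (C (idx a)) (K (idx a)) := h1
    rw [← h1']
    apply IsBr.mono
    apply h.mono.monotone
    rw [ha', hb]
    exact (nu_mono c).monotone (by omega)

end Pool.Agent.V8H50.JTB
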