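import Pool.Agent.V8H50.JTB.Upper

/-!
# The upper estimate for one layer, continued (helper file for MP_245e03_an, Q2)
-/

set_option autoImplicit false
set_option linter.unusedSectionVars false

open Set Filter Topology

namespace Pool.Agent.V8H50.JTB

open Pool.Agent.R277.JT

/-- the nodes of level less than `N` -/
noncomputable def low (N : ℕ) : Finset Tree := (Lev.fin (I := Tree) N).toFinset

lemma mem_low {N : ℕ} {a : Tree} : a ∈ low N ↔ lev a < N := Set.Finite.mem_toFinset _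

section thr

variable {E : ℕ → ℕ → (ℕ → Bool)} {J : Finset ℕ} {K : ℕ → ℕ} {s : ℕ}

open Classical in
/-- the vector of the differences along one thread -/
noncomputable def xh (E : ℕ → ℕ → (ℕ → Bool)) (s N : ℕ) (j : ℕ) (x : Pre Tree) : Pre Tree :=
  ∑ a ∈ low N, (if Anc s (idx a / 2) then
    sg (br (E j (idx a))) 0 x - sg (br (E j (idx a / 2))) 0 x else 0) • ev a

open Classical in
lemma val_xh (N j : ℕ) (x : Pre Tree) (a : Tree) : (xh E s N j x).val a =
    if a ∈ Wd s N then sg (br (E j (idx a))) 0 x - sg (br (E j (idx a / 2))) 0 x else 0 := by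
  unfold xh
  rw [val_sum]
  simp_rw [val_smul, val_ev, mul_ite, mul_one, mul_zero]
  rw [Finset.sum_ite_eq']
  by_cases h1 : lev a < N
  · rw [if_pos (mem_low.2 h1)]
    by_cases h2 : Anc s (idx a / 2)
    · rw [if_pos h2, if_pos (show a ∈ Wd s N from ⟨h2, h1⟩)]
    · rw [if_neg h2, if_neg (fun h => h2 h.1)]
  · rw [if_neg (fun h => h1 (mem_low.1 h)), if_neg (fun h => h1 h.2)]

open Classical in
lemma ss_xh (N j : ℕ) (x : Pre Tree) {S : Finset Tree} {c : ℕ → Bool} {m l : ℕ} (hml : m ≤ l)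
    (hS : S.filter (fun a => a ∈ Wd s N) = pc (br c) m (l + 1)) :
    ss S (xh E s N j x) =
      sg (br (E j (nu c (l + 1)))) 0 x - sg (br (E j (nu c m))) 0 x := by
  unfold ss
  rw [← tele c (fun t => sg (br (E j t)) 0 x) hml, ← hS, Finset.sum_filter]
  apply Finset.sum_congr rfl
  intro a _
  rw [val_xh]

open Classical in
lemma xh_sq (h : Thr E J K s) (N : ℕ) (x : Pre Tree) :
    ∑ j ∈ J, ‖xh E s N j x‖ ^ 2 ≤ 12 * ‖x‖ ^ 2 := by
  apply sum_sq_of_fam
  intro P hP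
  rw [Finset.sum_sigma']
  -- the segments which matter
  have hch : ∀ S : Finset Tree, ∃ (c : ℕ → Bool) (m l : ℕ),
      (S.filter (fun a => a ∈ Wd s N)).Nonempty → IsSeg S →
        m ≤ l ∧ S.filter (fun a => a ∈ Wd s N) = pc (br c) m (l + 1) := by
    intro S
    by_cases h1 : (S.filter (fun a => a ∈ Wd s N)).Nonempty ∧ IsSeg S
    · obtain ⟨c, m, l, h2⟩ := seg_eq_pc (seg_inter h1.2
        (inferInstance : (Wd s N).OrdConnected) h1.1)
      exact ⟨c, m, l, fun _ _ => h2⟩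
    · exact ⟨fun _ => false, 0, 0, fun h2 h3 => absurd ⟨h2, h3⟩ h1⟩
  choose cc mm ll hcc using hch
  set 𝒮 : Finset ((_ : ℕ) × Finset Tree) :=
    (J.sigma P).filter (fun p => (p.2.filter (fun a => a ∈ Wd s N)).Nonempty) with h𝒮
  have hmem : ∀ p ∈ 𝒮, p.1 ∈ J ∧ p.2 ∈ P p.1 ∧ mm p.2 ≤ ll p.2 ∧
      p.2.filter (fun a => a ∈ Wd s N) = pc (br (cc p.2)) (mm p.2) (ll p.2 + 1) ∧
      Anc s (nu (cc p.2) (mm p.2)) := by
    rintro ⟨j, S⟩ hp
    rw [h𝒮, Finset.mem_filter, Finset.mem_sigma] at hp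
    obtain ⟨⟨hj, hS⟩, hne⟩ := hp
    obtain ⟨h1, h2⟩ := hcc S hne ((hP j hj).1 S hS)
    refine ⟨hj, hS, h1, h2, ?_⟩
    have h3 : br (cc S) (mm S) ∈ S.filter (fun a => a ∈ Wd s N) := by
      rw [h2, mem_pc]
      refine ⟨by rw [IsBr.lev_eq], by rw [IsBr.lev_eq]; omega, by rw [IsBr.lev_eq]⟩
    have h4 := (Finset.mem_filter.1 h3).2.1
    rwa [← nu_succ, nu_half] at h4
  have hsum : ∑ p ∈ J.sigma P, (ss p.2 (xh E s N p.1 x)) ^ 2 =
      ∑ p ∈ 𝒮, (ss p.2 (xh E s N p.1 x)) ^ 2 := by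
    symm
    apply Finset.sum_subset (Finset.filter_subset _ _)
    rintro ⟨j, S⟩ hp hp'
    have h1 : ¬ (S.filter (fun a => a ∈ Wd s N)).Nonempty :=
      fun h => hp' (Finset.mem_filter.2 ⟨hp, h⟩)
    rw [Finset.not_nonempty_iff_eq_empty] at h1
    have h2 : ss S (xh E s N j x) = 0 := by
      unfold ss
      apply Finset.sum_eq_zero
      intro a ha
      rw [val_xh, if_neg]
      intro hW
      have : a ∈ S.filter (fun a => a ∈ Wd s N) := Finset.mem_filter.2 ⟨ha, hW⟩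
      rw [h1] at this
      exact absurd this (Finset.notMem_empty a)
    change (ss S (xh E s N j x)) ^ 2 = 0
    rw [h2]
    norm_num
  rw [hsum]
  -- disjointness of the chains
  have hX : ∀ p ∈ 𝒮, ∀ q ∈ 𝒮, p ≠ q → (p.1 ≠ q.1 ∨
      Disjoint (Xs (cc p.2) (mm p.2) (ll p.2)) (Xs (cc q.2) (mm q.2) (ll q.2))) := by
    rintro ⟨j, S⟩ hp ⟨j', S'⟩ hq hne
    by_cases hjj : j = j'
    · subst hjj
      right
      have hSS : S ≠ S' := fun h1 => hne (by rw [h1])
      obtain ⟨hj, hS, -, h1, -⟩ := hmem _ hp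
      obtain ⟨-, hS', -, h1', -⟩ := hmem _ hq
      have hd : Disjoint S S' := (hP j hj).2 hS hS' hSS
      rw [Set.disjoint_left]
      rintro t ⟨n, hn1, hn2, rfl⟩ ⟨n', hn1', hn2', hn3⟩
      rw [nu_succ, nu_succ] at hn3
      have h2 := idx_inj hn3
      have h3 : br (cc S) n ∈ S := by
        have : br (cc S) n ∈ S.filter (fun a => a ∈ Wd s N) := by
          have h1 : S.filter (fun a => a ∈ Wd s N) = pc (br (cc S)) (mm S) (ll S + 1) := h1
          rw [h1, mem_pc, IsBr.lev_eq]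
          exact ⟨hn1, Nat.lt_succ_of_le hn2, rfl⟩
        exact (Finset.mem_filter.1 this).1
      have h4 : br (cc S') n' ∈ S' := by
        have : br (cc S') n' ∈ S'.filter (fun a => a ∈ Wd s N) := by
          have h1' : S'.filter (fun a => a ∈ Wd s N) = pc (br (cc S')) (mm S') (ll S' + 1) := h1'
          rw [h1', mem_pc, IsBr.lev_eq]
          exact ⟨hn1', Nat.lt_succ_of_le hn2', rfl⟩
        exact (Finset.mem_filter.1 this).1
      rw [← h2] at h4
      exact Finset.disjoint_left.1 hd h3 h4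
    · exact Or.inl hjj
  -- first type
  have hA : ∑ p ∈ 𝒮, (ss (pc (br (E p.1 (nu (cc p.2) (ll p.2 + 1))))
      (K (nu (cc p.2) (mm p.2 + 1) - 1)) (K (nu (cc p.2) (mm p.2 + 1)))) x) ^ 2 ≤ ‖x‖ ^ 2 := by
    apply indexed
    · intro p _ hne
      exact isSeg_pc' hne
    · intro p hp q hq hne
      apply disj_pc
      intro n hn1 hn2 hn3 hn4
      obtain ⟨hj, hS, hml, -, ha⟩ := hmem _ hp
      obtain ⟨hj', hS', hml', -, ha'⟩ := hmem _ hq
      have hb1 := nu_pos (cc p.2) (mm p.2)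
      have hb2 := nu_pos (cc q.2) (mm q.2)
      have hββ : nu (cc p.2) (mm p.2 + 1) = nu (cc q.2) (mm q.2 + 1) := by
        rcases lt_trichotomy (nu (cc p.2) (mm p.2 + 1)) (nu (cc q.2) (mm q.2 + 1)) with h1 | h1 | h1
        · exfalso
          have := h.mono.monotone (show nu (cc p.2) (mm p.2 + 1) ≤ nu (cc q.2) (mm q.2 + 1) - 1 by omega)
          omega
        · exact h1
        · exfalso
          have := h.mono.monotone (show nu (cc q.2) (mm q.2 + 1) ≤ nu (cc p.2) (mm p.2 + 1) - 1 by omega)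
          omega
      have hjj : p.1 ≠ q.1 := by
        rcases hX p hp q hq hne with h1 | h1
        · exact h1
        · exfalso
          have hin : nu (cc p.2) (mm p.2 + 1) ∈ Xs (cc p.2) (mm p.2) (ll p.2) :=
            ⟨mm p.2, le_rfl, hml, rfl⟩
          have hin' : nu (cc p.2) (mm p.2 + 1) ∈ Xs (cc q.2) (mm q.2) (ll q.2) := by
            rw [hββ]
            exact ⟨mm q.2, le_rfl, hml', rfl⟩
          exact Set.disjoint_left.1 h1 hin hin'
      have e1 := agree_base h (n := ll p.2 + 1) (Nat.lt_succ_of_le hml) ha hj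
      have e2 := agree_base h (n := ll q.2 + 1) (Nat.lt_succ_of_le hml') ha' hj'
      have hππ : nu (cc p.2) (mm p.2) = nu (cc q.2) (mm q.2) := by
        rw [← nu_half, hββ, nu_half]
      rw [← hββ, ← hππ] at e2
      have hlt := nu_lt (cc p.2) (mm p.2)
      have h3 := h.ne _ _ ha ha p.1 hj q.1 hj' (Or.inr hjj) (K (nu (cc p.2) (mm p.2 + 1) - 1))
        (h.mono.monotone (by omega)) (h.mono.monotone (by omega))
      rw [← e1, ← e2] at h3
      exact br_ne_of h3 hn1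
  -- second type
  have hB : ∑ p ∈ 𝒮, (sg (br (E p.1 (nu (cc p.2) (ll p.2 + 1))))
      (K (nu (cc p.2) (mm p.2 + 1))) x) ^ 2 ≤ ‖x‖ ^ 2 := by
    apply tails_sq 𝒮 (fun p => br (E p.1 (nu (cc p.2) (ll p.2 + 1))))
      (fun p => K (nu (cc p.2) (mm p.2 + 1)))
    intro p hp q hq hne n hn1 hn2
    obtain ⟨hj, hS, hml, -, ha⟩ := hmem _ hp
    obtain ⟨hj', hS', hml', -, ha'⟩ := hmem _ hq
    exact disjB h _ (Xs (cc p.2) (mm p.2) (ll p.2)) (Xs (cc q.2) (mm q.2) (ll q.2))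
      _ _ p.1 q.1 _ _ (chain_Xs ha) (chain_Xs ha') hj hj' (hX p hp q hq hne)
      ⟨ll p.2, hml, le_rfl, rfl⟩ ⟨ll q.2, hml', le_rfl, rfl⟩ rfl n hn1 hn2
  -- third type
  have hC0 : ∀ b : ℕ, ∑ p ∈ 𝒮.filter (fun p => nu (cc p.2) (mm p.2 + 1) % 2 = b),
      (sg (br (E p.1 (nu (cc p.2) (mm p.2)))) (K (nu (cc p.2) (mm p.2 + 1) - 1)) x) ^ 2 ≤
        ‖x‖ ^ 2 := by
    intro b
    apply tails_sq (𝒮.filter (fun p => nu (cc p.2) (mm p.2 + 1) % 2 = b))
      (fun p => br (E p.1 (nu (cc p.2) (mm p.2))))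
      (fun p => K (nu (cc p.2) (mm p.2 + 1) - 1))
    intro p hp q hq hne n hn1 hn2
    rw [Finset.mem_filter] at hp hq
    obtain ⟨hp, hpb⟩ := hp
    obtain ⟨hq, hqb⟩ := hq
    obtain ⟨hj, hS, hml, -, ha⟩ := hmem _ hp
    obtain ⟨hj', hS', hml', -, ha'⟩ := hmem _ hq
    have hlt := nu_lt (cc p.2) (mm p.2)
    have hlt' := nu_lt (cc q.2) (mm q.2)
    have hor : nu (cc p.2) (mm p.2) ≠ nu (cc q.2) (mm q.2) ∨ p.1 ≠ q.1 := by
      rcases hX p hp q hq hne with h1 | h1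
      · exact Or.inr h1
      · left
        intro h2
        have h3 := nu_half (cc p.2) (mm p.2)
        have h4 := nu_half (cc q.2) (mm q.2)
        have h5 : nu (cc p.2) (mm p.2 + 1) = nu (cc q.2) (mm q.2 + 1) := by omega
        have hin : nu (cc p.2) (mm p.2 + 1) ∈ Xs (cc p.2) (mm p.2) (ll p.2) :=
          ⟨mm p.2, le_rfl, hml, rfl⟩
        have hin' : nu (cc p.2) (mm p.2 + 1) ∈ Xs (cc q.2) (mm q.2) (ll q.2) := by
          rw [h5]
          exact ⟨mm q.2, le_rfl, hml', rfl⟩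
        exact Set.disjoint_left.1 h1 hin hin'
    exact h.ne _ _ ha ha' p.1 hj q.1 hj' hor n
      ((h.mono.monotone (by omega)).trans hn1) ((h.mono.monotone (by omega)).trans hn2)
  have hC : ∑ p ∈ 𝒮,
      (sg (br (E p.1 (nu (cc p.2) (mm p.2)))) (K (nu (cc p.2) (mm p.2 + 1) - 1)) x) ^ 2 ≤
        2 * ‖x‖ ^ 2 := by
    rw [← Finset.sum_filter_add_sum_filter_not 𝒮 (fun p => nu (cc p.2) (mm p.2 + 1) % 2 = 0)]
    have h1 := hC0 0
    have h2 := hC0 1
    have h3 : 𝒮.filter (fun p => ¬ nu (cc p.2) (mm p.2 + 1) % 2 = 0) =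
        𝒮.filter (fun p => nu (cc p.2) (mm p.2 + 1) % 2 = 1) := by
      apply Finset.filter_congr
      intro p _
      omega
    rw [h3]
    linarith
  -- conclusion
  have hfin : ∑ p ∈ 𝒮, (ss p.2 (xh E s N p.1 x)) ^ 2 ≤ ∑ p ∈ 𝒮, 3 * (
      (ss (pc (br (E p.1 (nu (cc p.2) (ll p.2 + 1))))
        (K (nu (cc p.2) (mm p.2 + 1) - 1)) (K (nu (cc p.2) (mm p.2 + 1)))) x) ^ 2 +
      (sg (br (E p.1 (nu (cc p.2) (ll p.2 + 1)))) (K (nu (cc p.2) (mm p.2 + 1))) x) ^ 2 +
      (sg (br (E p.1 (nu (cc p.2) (mm p.2)))) (K (nu (cc p.2) (mm p.2 + 1) - 1)) x) ^ 2) := by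
    apply Finset.sum_le_sum
    intro p hp
    obtain ⟨hj, hS, hml, hf, ha⟩ := hmem _ hp
    rw [ss_xh N p.1 x hml hf, decomp h hml ha hj x]
    nlinarith [sq_nonneg (ss (pc (br (E p.1 (nu (cc p.2) (ll p.2 + 1))))
        (K (nu (cc p.2) (mm p.2 + 1) - 1)) (K (nu (cc p.2) (mm p.2 + 1)))) x -
        sg (br (E p.1 (nu (cc p.2) (ll p.2 + 1)))) (K (nu (cc p.2) (mm p.2 + 1))) x),
      sq_nonneg (ss (pc (br (E p.1 (nu (cc p.2) (ll p.2 + 1))))
        (K (nu (cc p.2) (mm p.2 + 1) - 1)) (K (nu (cc p.2) (mm p.2 + 1)))) x +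
        sg (br (E p.1 (nu (cc p.2) (mm p.2)))) (K (nu (cc p.2) (mm p.2 + 1) - 1)) x),
      sq_nonneg (sg (br (E p.1 (nu (cc p.2) (ll p.2 + 1)))) (K (nu (cc p.2) (mm p.2 + 1))) x +
        sg (br (E p.1 (nu (cc p.2) (mm p.2)))) (K (nu (cc p.2) (mm p.2 + 1) - 1)) x)]
  rw [← Finset.mul_sum, Finset.sum_add_distrib, Finset.sum_add_distrib] at hfin
  linarith

open Classical in
/-- The upper estimate for one layer. -/
theorem layer_upper (h : Thr E J K s) (v : ℕ → ℝ) (φ : D Tree) (N : ℕ) :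
    ‖∑ a ∈ low N, φ (ev a) • (if Anc s (idx a / 2) then
      ∑ j ∈ J, v j • (sg (br (E j (idx a))) 0 - sg (br (E j (idx a / 2))) 0) else 0)‖ ≤
      4 * ‖φ‖ * √(∑ j ∈ J, v j ^ 2) := by
  have h1 := norm_le_of_sq J (∑ a ∈ low N, φ (ev a) • (if Anc s (idx a / 2) then
      ∑ j ∈ J, v j • (sg (br (E j (idx a))) 0 - sg (br (E j (idx a / 2))) 0) else 0))
    (fun j => v j * (4 * ‖φ‖)) (fun j x => ‖xh E s N j x‖ / 4) (by
      intro x
      have h2 : (∑ a ∈ low N, φ (ev a) • (if Anc s (idx a / 2) then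
          ∑ j ∈ J, v j • (sg (br (E j (idx a))) 0 - sg (br (E j (idx a / 2))) 0) else 0)) x =
          ∑ j ∈ J, v j * φ (xh E s N j x) := by
        rw [_root_.sum_apply]
        have h3 : ∀ j ∈ J, v j * φ (xh E s N j x) = ∑ a ∈ low N,
            φ (ev a) * (if Anc s (idx a / 2) then
              v j * (sg (br (E j (idx a))) 0 x - sg (br (E j (idx a / 2))) 0 x) else 0) := by
          intro j _
          unfold xh
          rw [map_sum, Finset.mul_sum]
          apply Finset.sum_congr rfl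
          intro a _
          rw [map_smul, smul_eq_mul]
          split_ifs
          · ring
          · ring
        rw [Finset.sum_congr rfl h3, Finset.sum_comm]
        apply Finset.sum_congr rfl
        intro a _
        rw [_root_.smul_apply, smul_eq_mul, ← Finset.mul_sum]
        congr 1
        split_ifs
        · rw [_root_.sum_apply]
          apply Finset.sum_congr rfl
          intro j _
          rw [_root_.smul_apply, _root_.sub_apply, smul_eq_mul]
        · simp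
      rw [h2]
      refine (Finset.abs_sum_le_sum_abs _ _).trans (Finset.sum_le_sum fun j _ => ?_)
      have h4 := φ.le_opNorm (xh E s N j x)
      rw [Real.norm_eq_abs] at h4
      rw [abs_mul, abs_mul, abs_of_nonneg (show 0 ≤ 4 * ‖φ‖ by positivity),
        abs_of_nonneg (show 0 ≤ ‖xh E s N j x‖ / 4 by positivity)]
      have h5 := mul_le_mul_of_nonneg_left h4 (abs_nonneg (v j))
      calc _ ≤ _ := h5
        _ = _ := by ring) (by
      intro x
      have h2 := xh_sq h N x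
      have h3 : ∑ j ∈ J, (‖xh E s N j x‖ / 4) ^ 2 = (∑ j ∈ J, ‖xh E s N j x‖ ^ 2) / 16 := by
        rw [Finset.sum_div]
        exact Finset.sum_congr rfl fun j _ => by ring
      rw [h3]
      nlinarith [sq_nonneg ‖x‖])
  refine h1.trans (le_of_eq ?_)
  simp_rw [mul_pow _ (4 * ‖φ‖)]
  rw [← Finset.sum_mul, Real.sqrt_mul (Finset.sum_nonneg fun _ _ => sq_nonneg _),
    Real.sqrt_sq (by positivity)]
  ring

end thr

end Pool.Agent.V8H50.JTB
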