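import Pool.Agent.V8H50.JTB.Rec
import Pool.Agent.V8H50.JTB.Upper2
import Pool.Agent.V8H50.JTB.Push

/-!
# Properties of the construction (helper file for MP_245e03_an, Q2)
-/

set_option autoImplicit false
set_option linter.unusedSectionVars false

open Set Filter Topology

namespace Pool.Agent.V8H50.JTB

open Pool.Agent.R277.JT

/-- The construction. -/
structure Sch (S : ℕ → St) (ε : ℕ → ℝ) (A0 : Set (ℕ → Bool)) (y : (ℕ → Bool) → D Tree)
    (M : ℝ) : Prop where
  inv : ∀ t, Inv (S t) (ε t)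
  r0 : Rel (S 0) A0 {id} y M ∅ 0
  rel : ∀ t, RelS S ε t

/-- the layer function -/
noncomputable def gl (S : St) (c : ℕ → Bool) : D Tree :=
  S.b + ∑ j ∈ S.s, S.v j • sg (br (S.d j c)) 0

section facts

variable {S : ℕ → St} {ε : ℕ → ℝ} {A0 : Set (ℕ → Bool)} {y : (ℕ → Bool) → D Tree} {M : ℝ}

lemma Sch.Kmono (h : Sch S ε A0 y M) : StrictMono (fun t => (S t).K) :=
  strictMono_nat_of_lt_succ fun t => (h.rel t).klt

lemma Sch.agree (h : Sch S ε A0 y M) (t : ℕ) {f : (ℕ → Bool) → (ℕ → Bool)}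
    (hf : f ∈ (S ((t + 1) / 2)).T) :
    br (f (S (t + 1)).c) (S t).K = br (f (S ((t + 1) / 2)).c) (S t).K :=
  ((h.rel t).sub (h.inv (t + 1)).cA).2 f hf

lemma Sch.anc_T (h : Sch S ε A0 y M) {s t : ℕ} (hst : Anc s t) : (S s).T ⊆ (S t).T := by
  induction hst with
  | refl => exact subset_rfl
  | step t _ ih =>
    cases t with
    | zero => exact ih
    | succ u => exact ih.trans (h.rel u).Tsub

lemma Sch.anc_A (h : Sch S ε A0 y M) {s t : ℕ} (hst : Anc s t) : (S t).A ⊆ (S s).A := by
  induction hst with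
  | refl => exact subset_rfl
  | step t _ ih =>
    cases t with
    | zero => exact ih
    | succ u => exact fun c hc => ih ((h.rel u).sub hc).1

lemma Sch.mem_D (_h : Sch S ε A0 y M) {t : ℕ} {f : (ℕ → Bool) → (ℕ → Bool)} (hf : f ∈ (S t).T) :
    f (S t).c ∈ (S t).D := ⟨f, hf, rfl⟩

lemma Sch.mem_C (h : Sch S ε A0 y M) (t : ℕ) : (S t).c ∈ (S t).D := ⟨id, (h.inv t).idm, rfl⟩

lemma Sch.avoid (h : Sch S ε A0 y M) {u t : ℕ} (hut : u < t) {x x' : ℕ → Bool}
    (hx : x ∈ (S t).D) (hx' : x' ∈ (S u).D) : x ≠ x' := by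
  obtain ⟨t', rfl⟩ : ∃ t', t = t' + 1 := ⟨t - 1, by omega⟩
  rintro rfl
  apply (h.rel t').avoid x hx
  unfold Qs
  exact mem_iUnion₂.2 ⟨u, Finset.mem_range.2 hut, hx'⟩

lemma Sch.sep (h : Sch S ε A0 y M) {t u n : ℕ} (ht : t ≤ n) (hu : u ≤ n) {x x' : ℕ → Bool}
    (hx : x ∈ (S t).D) (hx' : x' ∈ (S u).D) (hne : x ≠ x') {q : ℕ} (hq : (S n).K ≤ q) :
    br x q ≠ br x' q := by
  refine br_ne_of ?_ hq
  cases n with
  | zero =>
    have h1 : t = 0 := by omega
    have h2 : u = 0 := by omega
    subst h1 h2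
    exact h.r0.sep x (Or.inr hx) x' (Or.inr hx') hne
  | succ n =>
    have key : ∀ t, t ≤ n + 1 → ∀ x, x ∈ (S t).D → x ∈ Qs S n ∪ (S (n + 1)).D := by
      intro t ht x hx
      rcases Nat.lt_or_ge t (n + 1) with h1 | h1
      · left
        unfold Qs
        exact mem_iUnion₂.2 ⟨t, Finset.mem_range.2 h1, hx⟩
      · right
        have : t = n + 1 := by omega
        rwa [← this]
    exact (h.rel n).sep x (key t ht x hx) x' (key u hu x' hx') hne

lemma Sch.thr (h : Sch S ε A0 y M) (s : ℕ) :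
    Thr (fun j t => (S s).d j (S t).c) (S s).s (fun t => (S t).K) s := by
  constructor
  · exact h.Kmono
  · intro t ht j hj
    exact h.agree t (h.anc_T ht ((h.inv s).dT j hj))
  · intro t t' ht ht' j hj j' hj' hor n hn hn'
    have hx := h.mem_D (h.anc_T ht ((h.inv s).dT j hj))
    have hx' := h.mem_D (h.anc_T ht' ((h.inv s).dT j' hj'))
    have hne : (S s).d j (S t).c ≠ (S s).d j' (S t').c := by
      rcases lt_trichotomy t t' with h1 | h1 | h1
      · exact (h.avoid h1 hx' hx).symm
      · subst h1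
        rcases hor with h2 | h2
        · exact absurd rfl h2
        · exact (h.inv s).dne _ (h.anc_A ht (h.inv t).cA) j hj j' hj' h2
      · exact h.avoid h1 hx hx'
    rcases le_total t t' with h1 | h1
    · exact h.sep h1 le_rfl hx hx' hne hn'
    · exact h.sep le_rfl h1 hx hx' hne hn

lemma Sch.thrC (h : Sch S ε A0 y M) :
    Thr (fun _ t => (S t).c) {0} (fun t => (S t).K) 0 := by
  constructor
  · exact h.Kmono
  · intro t _ j _
    exact h.agree t (f := id) (h.inv _).idm
  · intro t t' _ _ j hj j' hj' hor n hn hn'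
    have htt : t ≠ t' := by
      rcases hor with h1 | h1
      · exact h1
      · rw [Finset.mem_singleton] at hj hj'
        exact absurd (hj.trans hj'.symm) h1
    have hx := h.mem_C t
    have hx' := h.mem_C t'
    have hne : (S t).c ≠ (S t').c := by
      rcases lt_or_gt_of_ne htt with h1 | h1
      · exact (h.avoid h1 hx' hx).symm
      · exact h.avoid h1 hx hx'
    rcases le_total t t' with h1 | h1
    · exact h.sep h1 le_rfl hx hx' hne hn'
    · exact h.sep le_rfl h1 hx hx' hne hn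

open Classical in
lemma Sch.resid (h : Sch S ε A0 y M) (N : ℕ) (c : ℕ → Bool) : ∀ p, p < N →
    (S p).r c = y c - ∑ s ∈ Finset.range N, if Anc s p then gl (S s) c else 0 := by
  intro p
  induction p using Nat.strong_induction_on with
  | _ p ih =>
    intro hp
    rcases Nat.eq_zero_or_pos p with rfl | hpos
    · rw [h.r0.req c]
      have h1 : ∑ s ∈ Finset.range N, (if Anc s 0 then gl (S s) c else 0) = gl (S 0) c := by
        rw [Finset.sum_eq_single_of_mem 0 (Finset.mem_range.2 hp)]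
        · rw [if_pos Anc.refl]
        · intro s _ hs
          rw [if_neg]
          intro ha
          have := ha.le
          omega
      rw [h1]
      unfold gl
      abel
    · obtain ⟨u, rfl⟩ : ∃ u, p = u + 1 := ⟨p - 1, by omega⟩
      have h2 := (h.rel u).req c
      rw [h2, ih ((u + 1) / 2) (by omega) (by omega)]
      have h1 : ∑ s ∈ Finset.range N, (if Anc s (u + 1) then gl (S s) c else 0) =
          ∑ s ∈ Finset.range N, (if Anc s ((u + 1) / 2) then gl (S s) c else 0) +
          gl (S (u + 1)) c := by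
        have h3 : ∀ s ∈ Finset.range N, (if Anc s (u + 1) then gl (S s) c else 0) =
            (if Anc s ((u + 1) / 2) then gl (S s) c else 0) +
            (if s = u + 1 then gl (S s) c else 0) := by
          intro s _
          have h4 := anc_iff (s := s) (t := u + 1) hpos
          by_cases h5 : s = u + 1
          · have h6 : ¬ Anc s ((u + 1) / 2) := by
              intro ha
              have := ha.le
              omega
            rw [if_pos (h4.2 (Or.inl h5)), if_neg h6, if_pos h5, zero_add]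
          · by_cases h6 : Anc s ((u + 1) / 2)
            · rw [if_pos (h4.2 (Or.inr h6)), if_pos h6, if_neg h5, add_zero]
            · rw [if_neg (fun h7 => (h4.1 h7).elim h5 h6), if_neg h6, if_neg h5, add_zero]
        rw [Finset.sum_congr rfl h3, Finset.sum_add_distrib, Finset.sum_ite_eq',
          if_pos (Finset.mem_range.2 hp)]
      rw [h1]
      unfold gl
      abel

/-- The vectors of the copy of the predual. -/
noncomputable def zz (S : ℕ → St) (y : (ℕ → Bool) → D Tree) (t : ℕ) : D Tree :=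
  y (S t).c - y (S (t / 2)).c

/-- The error terms. -/
noncomputable def er (S : ℕ → St) (t : ℕ) : D Tree :=
  (S (t / 2)).r (S t).c - (S (t / 2)).r (S (t / 2)).c

lemma anc_half (t : ℕ) : Anc (t / 2) t := Anc.step t Anc.refl

lemma Sch.norm_er (h : Sch S ε A0 y M) (t : ℕ) : ‖er S t‖ ≤ 2 * ε (t / 2) := by
  unfold er
  have h1 := (h.inv (t / 2)).res _ (h.anc_A (anc_half t) (h.inv t).cA)
  have h2 := (h.inv (t / 2)).res _ (h.inv (t / 2)).cA
  have h3 := norm_sub_le ((S (t / 2)).r (S t).c) ((S (t / 2)).r (S (t / 2)).c)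
  linarith

open Classical in
lemma Sch.zz_eq (h : Sch S ε A0 y M) {N t : ℕ} (ht : t < N) :
    zz S y t = er S t + ∑ s ∈ Finset.range N, (if Anc s (t / 2) then
      ∑ j ∈ (S s).s, (S s).v j •
        (sg (br ((S s).d j (S t).c)) 0 - sg (br ((S s).d j (S (t / 2)).c)) 0) else 0) := by
  have h1 := h.resid N (S t).c (t / 2) (by omega)
  have h2 := h.resid N (S (t / 2)).c (t / 2) (by omega)
  have h3 : ∑ s ∈ Finset.range N, (if Anc s (t / 2) then
      ∑ j ∈ (S s).s, (S s).v j •
        (sg (br ((S s).d j (S t).c)) 0 - sg (br ((S s).d j (S (t / 2)).c)) 0) else 0) =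
      ∑ s ∈ Finset.range N, (if Anc s (t / 2) then gl (S s) (S t).c else 0) -
      ∑ s ∈ Finset.range N, (if Anc s (t / 2) then gl (S s) (S (t / 2)).c else 0) := by
    rw [← Finset.sum_sub_distrib]
    apply Finset.sum_congr rfl
    intro s _
    split_ifs
    · unfold gl
      simp_rw [smul_sub]
      rw [Finset.sum_sub_distrib]
      abel
    · rw [sub_zero]
  rw [h3]
  unfold zz er
  rw [h1, h2]
  abel

lemma sg_ev_eq {e e' : ℕ → Bool} {n : ℕ} (h : br e n = br e' n) :
    sg (br e) 0 (ev (br e' n)) = 1 := sg_ev_br (Nat.zero_le n) h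

lemma sg_ev_neq {e e' : ℕ → Bool} {n : ℕ} (h : br e n ≠ br e' n) :
    sg (br e) 0 (ev (br e' n)) = 0 := sg_ev_br_ne h

/-- the embedding of the index tree -/
noncomputable def em (S : ℕ → St) : Tree → Tree := emb (fun t => (S t).c) (fun t => (S t).K)

lemma Sch.em_le (h : Sch S ε A0 y M) (a b : Tree) : em S a ≤ em S b ↔ a ≤ b :=
  emb_le h.thrC a b

open Classical in
lemma Sch.comp_term (h : Sch S ε A0 y M) (a : Tree) {s : ℕ} (hs : Anc s (idx a / 2)) {j : ℕ}
    (hj : j ∈ (S s).s) :
    (sg (br ((S s).d j (S (idx a)).c)) 0 - sg (br ((S s).d j (S (idx a / 2)).c)) 0).comp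
      (pushT (em S) h.em_le) =
      (if (S s).d j (S (idx a)).c = (S (idx a)).c then (1:ℝ) else 0) • bio a := by
  have hT2 : (S s).d j ∈ (S (idx a / 2)).T := h.anc_T hs ((h.inv s).dT j hj)
  have hT : (S s).d j ∈ (S (idx a)).T := h.anc_T (Anc.step _ hs) ((h.inv s).dT j hj)
  have hpos := idx_pos a
  apply D_ext
  intro b
  rw [ContinuousLinearMap.comp_apply, pushT_ev, _root_.smul_apply, bio_ev, smul_eq_mul,
    _root_.sub_apply]
  change sg (br ((S s).d j (S (idx a)).c)) 0 (ev (br (S (idx b)).c (S (idx b)).K)) -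
    sg (br ((S s).d j (S (idx a / 2)).c)) 0 (ev (br (S (idx b)).c (S (idx b)).K)) = _
  rcases Nat.lt_or_ge (idx b) (idx a) with h1 | h1
  · -- low nodes
    have hba : b ≠ a := fun h2 => by rw [h2] at h1; exact lt_irrefl _ h1
    rw [if_neg hba, mul_zero]
    obtain ⟨u, hu⟩ : ∃ u, idx a = u + 1 := ⟨idx a - 1, by omega⟩
    have h2 := h.agree u (f := (S s).d j) (by rw [← hu]; exact hT2)
    rw [← hu] at h2
    have h3 := br_eq_of h2 (h.Kmono.monotone (show idx b ≤ u by omega))
    change br ((S s).d j (S (idx a)).c) (S (idx b)).K =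
      br ((S s).d j (S (idx a / 2)).c) (S (idx b)).K at h3
    by_cases h4 : br ((S s).d j (S (idx a)).c) (S (idx b)).K = br (S (idx b)).c (S (idx b)).K
    · rw [sg_ev_eq h4, sg_ev_eq (h3.symm.trans h4), sub_self]
    · rw [sg_ev_neq h4, sg_ev_neq (fun h5 => h4 (h3.trans h5)), sub_self]
  · -- high nodes
    have hlt : idx a / 2 < idx b := by omega
    have h2 : br ((S s).d j (S (idx a / 2)).c) (S (idx b)).K ≠ br (S (idx b)).c (S (idx b)).K :=
      h.sep hlt.le le_rfl (h.mem_D hT2) (h.mem_C _)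
        (h.avoid hlt (h.mem_C _) (h.mem_D hT2)).symm le_rfl
    rw [sg_ev_neq h2, sub_zero]
    by_cases h3 : b = a
    · subst h3
      rw [if_pos rfl, mul_one]
      by_cases h4 : (S s).d j (S (idx b)).c = (S (idx b)).c
      · rw [if_pos h4, h4, sg_ev_eq rfl]
      · rw [if_neg h4, sg_ev_neq]
        exact h.sep le_rfl le_rfl (h.mem_D hT) (h.mem_C _) h4 le_rfl
    · have h4 : idx a < idx b := lt_of_le_of_ne h1 (fun h5 => h3 (idx_inj h5).symm)
      rw [if_neg h3, mul_zero, sg_ev_neq]
      exact h.sep h4.le le_rfl (h.mem_D hT) (h.mem_C _)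
        (h.avoid h4 (h.mem_C _) (h.mem_D hT)).symm le_rfl

open Classical in
/-- the coefficients of the lower estimate -/
noncomputable def rh (S : ℕ → St) (N t : ℕ) : ℝ :=
  ∑ s ∈ Finset.range N, if Anc s (t / 2) then
    ∑ j ∈ (S s).s, (S s).v j * (if (S s).d j (S t).c = (S t).c then (1:ℝ) else 0) else 0

open Classical in
lemma Sch.rho (h : Sch S ε A0 y M) (hy : ∀ c ∈ A0, Lm (br c) (y c) = 1) {N t : ℕ} (ht : t < N) :
    |rh S N t - 1| ≤ ε (t / 2) := by
  have hA : (S t).c ∈ A0 := h.r0.sub (h.anc_A (anc_root t) (h.inv t).cA)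
  have h1 := h.resid N (S t).c (t / 2) (by omega)
  have h2 : LmC (S t).c ((S (t / 2)).r (S t).c) = 1 - rh S N t := by
    rw [h1, map_sub, LmC_apply, hy _ hA, map_sum]
    congr 1
    unfold rh
    apply Finset.sum_congr rfl
    intro s _
    split_ifs with hs
    · unfold gl
      rw [map_add, LmC_apply, (h.inv s).bz _ (h.anc_A (Anc.step _ hs) (h.inv t).cA), zero_add,
        map_sum]
      apply Finset.sum_congr rfl
      intro j _
      rw [map_smul, LmC_apply, Lm_sg, smul_eq_mul]
    · exact map_zero _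
  have h3 := abs_Lm_le (br (S t).c) ((S (t / 2)).r (S t).c)
  rw [← LmC_apply, h2] at h3
  have h4 := (h.inv (t / 2)).res _ (h.anc_A (anc_half t) (h.inv t).cA)
  rw [abs_sub_comm]
  linarith

end facts

end Pool.Agent.V8H50.JTB
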