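import Pool.Agent.V8H50.JTB.Base

/-!
# Numbering the nodes of the dyadic tree (helper file for MP_245e03_an, Q2)
-/

set_option autoImplicit false
set_option linter.unusedSectionVars false

open Set Filter Topology

namespace Pool.Agent.V8H50.JTB

open Pool.Agent.R277.JT

/-- The number of a node: the root has number `1`, and the successors of the node with number `n`
have numbers `2 n` and `2 n + 1`. -/
def idxL (a : List Bool) : ℕ := a.foldl (fun n b => 2 * n + b.toNat) 1

lemma idxL_nil : idxL [] = 1 := rfl

lemma idxL_append (a : List Bool) (b : Bool) : idxL (a ++ [b]) = 2 * idxL a + b.toNat := by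
  unfold idxL
  rw [List.foldl_append]
  rfl

lemma idxL_pos (a : List Bool) : 1 ≤ idxL a := by
  induction a using List.reverseRecOn with
  | nil => exact le_rfl
  | append_singleton l b ih => rw [idxL_append]; omega

lemma toNat_le (b : Bool) : b.toNat ≤ 1 := by cases b <;> simp

lemma idxL_inj : Function.Injective idxL := by
  intro a
  induction a using List.reverseRecOn with
  | nil =>
    intro b hb
    rcases List.eq_nil_or_concat b with rfl | ⟨l, x, rfl⟩
    · rfl
    · exfalso
      rw [idxL_nil, List.concat_eq_append, idxL_append] at hb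
      have := idxL_pos l
      omega
  | append_singleton l x ih =>
    intro b hb
    rcases List.eq_nil_or_concat b with rfl | ⟨l', x', rfl⟩
    · exfalso
      rw [idxL_nil, idxL_append] at hb
      have := idxL_pos l
      omega
    · rw [List.concat_eq_append] at hb ⊢
      rw [idxL_append, idxL_append] at hb
      have h1 := toNat_le x
      have h2 := toNat_le x'
      have h3 : idxL l = idxL l' := by omega
      have h4 : x.toNat = x'.toNat := by omega
      have h5 : x = x' := by
        cases x <;> cases x' <;> simp_all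
      rw [ih h3, h5]

/-- The number of a node of the tree. -/
def idx (a : Tree) : ℕ := idxL (show List Bool from a)

lemma idx_pos (a : Tree) : 1 ≤ idx a := idxL_pos _

lemma idx_inj : Function.Injective idx := fun _ _ h => idxL_inj h

lemma br_succ (c : ℕ → Bool) (n : ℕ) :
    (show List Bool from br c (n + 1)) = (show List Bool from br c n) ++ [c n] := by
  change (List.range (n + 1)).map c = (List.range n).map c ++ [c n]
  rw [List.range_succ, List.map_append]
  rfl

lemma idx_br_succ (c : ℕ → Bool) (n : ℕ) :
    idx (br c (n + 1)) = 2 * idx (br c n) + (c n).toNat := by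
  unfold idx
  rw [← idxL_append, ← br_succ]

lemma idx_br_zero (c : ℕ → Bool) : idx (br c 0) = 1 := rfl

/-- The numbers of the nodes of a branch, with `0` for the predecessor of the root. -/
def nu (c : ℕ → Bool) : ℕ → ℕ
  | 0 => 0
  | n + 1 => idx (br c n)

lemma nu_zero (c : ℕ → Bool) : nu c 0 = 0 := rfl

lemma nu_succ (c : ℕ → Bool) (n : ℕ) : nu c (n + 1) = idx (br c n) := rfl

lemma nu_half (c : ℕ → Bool) (n : ℕ) : nu c (n + 1) / 2 = nu c n := by
  cases n with
  | zero => rw [nu_succ, nu_zero, idx_br_zero]
  | succ n =>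
    rw [nu_succ, nu_succ, idx_br_succ]
    have := toNat_le (c n)
    omega

lemma nu_pos (c : ℕ → Bool) (n : ℕ) : 1 ≤ nu c (n + 1) := idx_pos _

lemma nu_lt (c : ℕ → Bool) (n : ℕ) : nu c n < nu c (n + 1) := by
  have h1 := nu_half c n
  have h2 := nu_pos c n
  omega

lemma nu_mono (c : ℕ → Bool) : StrictMono (nu c) := strictMono_nat_of_lt_succ (nu_lt c)

/-- every node lies on a branch -/
lemma exists_br (a : Tree) : ∃ c, br c (lev a) = a := by
  refine ⟨fun n => (show List Bool from a).getD n false, ?_⟩
  change (List.range (List.length (show List Bool from a))).map _ = (show List Bool from a)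
  apply List.ext_getElem
  · simp
  · intro i h1 h2
    simp only [List.getElem_map, List.getElem_range]
    rw [List.getD_eq_getElem _ _ h2]

/-- segments are pieces of branches -/
lemma seg_eq_pc {S : Finset Tree} (hS : IsSeg S) :
    ∃ (c : ℕ → Bool) (m l : ℕ), m ≤ l ∧ S = pc (br c) m (l + 1) := by
  classical
  obtain ⟨a, z, haz, hm⟩ := hS
  obtain ⟨c, hc⟩ := exists_br z
  refine ⟨c, lev a, lev z, lev_mono haz, ?_⟩
  have ha : a = br c (lev a) := IsBr.eq_of_le (σ := br c) (n := lev z) (by rw [hc]; exact haz)
  ext b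
  rw [hm, mem_pc]
  constructor
  · rintro ⟨h1, h2⟩
    refine ⟨lev_mono h1, Nat.lt_succ_of_le (lev_mono h2), ?_⟩
    exact (IsBr.eq_of_le (σ := br c) (n := lev z) (by rw [hc]; exact h2)).symm
  · rintro ⟨h1, h2, h3⟩
    rw [← h3]
    constructor
    · nth_rewrite 1 [ha]
      exact IsBr.mono h1
    · have h4 : br c (lev b) ≤ br c (lev z) := IsBr.mono (Nat.lt_succ_iff.1 h2)
      rwa [hc] at h4

/-- telescoping along a piece of a branch -/
lemma tele (c : ℕ → Bool) (h : ℕ → ℝ) {m l : ℕ} (hml : m ≤ l) :
    ∑ a ∈ pc (br c) m (l + 1), (h (idx a) - h (idx a / 2)) = h (nu c (l + 1)) - h (nu c m) := by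
  classical
  unfold pc
  rw [Finset.sum_image (fun a _ b _ h => IsBr.inj (br c) h)]
  have h1 : ∀ n, h (idx (br c n)) - h (idx (br c n) / 2) = h (nu c (n + 1)) - h (nu c n) := by
    intro n
    rw [← nu_succ, nu_half]
  simp_rw [h1]
  induction l, hml using Nat.le_induction with
  | base => simp
  | succ l hml ih =>
    rw [Finset.sum_Ico_succ_top (by omega), ih]
    ring

/-- The ancestor relation on numbers. -/
inductive Anc (s : ℕ) : ℕ → Prop
  | refl : Anc s s
  | step (t : ℕ) : Anc s (t / 2) → Anc s t

lemma Anc.le {s t : ℕ} (h : Anc s t) : s ≤ t := by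
  induction h with
  | refl => exact le_rfl
  | step t _ ih => omega

lemma anc_iff {s t : ℕ} (ht : 1 ≤ t) : Anc s t ↔ s = t ∨ Anc s (t / 2) := by
  constructor
  · intro h
    cases h with
    | refl => exact Or.inl rfl
    | step _ h => exact Or.inr h
  · rintro (rfl | h)
    · exact Anc.refl
    · exact Anc.step t h

lemma anc_nu {s : ℕ} {c : ℕ → Bool} {m n : ℕ} (hmn : m ≤ n) (h : Anc s (nu c m)) :
    Anc s (nu c n) := by
  induction n, hmn using Nat.le_induction with
  | base => exact h
  | succ n _ ih => exact Anc.step _ (by rw [nu_half]; exact ih)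

/-- The nodes whose predecessor is a descendant of `s`, of level less than `N`. -/
def Wd (s N : ℕ) : Set Tree := {a | Anc s (idx a / 2) ∧ lev a < N}

instance (s N : ℕ) : (Wd s N).OrdConnected := by
  constructor
  rintro a ⟨ha, -⟩ b ⟨-, hb⟩ x ⟨hax, hxb⟩
  refine ⟨?_, lt_of_le_of_lt (lev_mono hxb) hb⟩
  obtain ⟨c, hc⟩ := exists_br x
  have h1 : a = br c (lev a) := IsBr.eq_of_le (σ := br c) (n := lev x) (by rw [hc]; exact hax)
  rw [h1, ← nu_succ, nu_half] at ha
  rw [← hc, ← nu_succ, nu_half]
  exact anc_nu (lev_mono hax) ha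

lemma anc_root (t : ℕ) : Anc 0 t := by
  induction t using Nat.strong_induction_on with
  | _ t ih =>
    rcases Nat.eq_zero_or_pos t with rfl | h
    · exact Anc.refl
    · exact Anc.step t (ih _ (by omega))

end Pool.Agent.V8H50.JTB
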