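import Pool.Agent.V8H50.JTB.Base

/-!
# One step of the construction (helper file for MP_245e03_an, Q2)
-/

set_option autoImplicit false
set_option linter.unusedSectionVars false

open Set Filter Topology

namespace Pool.Agent.V8H50.JTB

open Pool.Agent.R277.JT

lemma pigeonC {ι P : Type*} [Countable P] {A : Set ι} (hA : ¬ A.Countable) (π : ι → P) :
    ∃ c0 ∈ A, ¬ {c ∈ A | π c = π c0}.Countable := by
  by_contra hcon
  push Not at hcon
  apply hA
  refine (condens A π).mono ?_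
  intro c hc
  exact ⟨hc, hcon c hc⟩

/-- dichotomy: constant or countable-to-one -/
lemma dich {A : Set (ℕ → Bool)} (hA : ¬ A.Countable) (d : ℕ → (ℕ → Bool) → (ℕ → Bool))
    (s : Finset ℕ) :
    ∃ A' ⊆ A, ¬ A'.Countable ∧ ∃ (J : Finset ℕ) (e : ℕ → (ℕ → Bool)), J ⊆ s ∧
      (∀ j ∈ J, ∀ c ∈ A', d j c = e j) ∧
      ∀ j ∈ s, j ∉ J → ∀ x, {c ∈ A' | d j c = x}.Countable := by
  classical
  induction s using Finset.induction_on with
  | empty => exact ⟨A, subset_rfl, hA, ∅, fun _ _ => false, subset_rfl, by simp, by simp⟩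
  | insert a s ha ih =>
    obtain ⟨A', hA'A, hA', J, e, hJ, he, hc⟩ := ih
    by_cases h : ∃ x, ¬ {c ∈ A' | d a c = x}.Countable
    · obtain ⟨x, hx⟩ := h
      have haJ : a ∉ J := fun h => ha (hJ h)
      refine ⟨{c ∈ A' | d a c = x}, fun c hc => hA'A hc.1, hx, insert a J,
        Function.update e a x, Finset.insert_subset_insert _ hJ, ?_, ?_⟩
      · intro j hj c hc
        rcases Finset.mem_insert.1 hj with rfl | hj
        · rw [Function.update_self]; exact hc.2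
        · have : j ≠ a := fun h => haJ (h ▸ hj)
          rw [Function.update_of_ne this]
          exact he j hj c hc.1
      · intro j hj hj' y
        rw [Finset.mem_insert, not_or] at hj'
        rcases Finset.mem_insert.1 hj with rfl | hj
        · exact absurd rfl hj'.1
        · refine (hc j hj hj'.2 y).mono ?_
          rintro c ⟨⟨h1, -⟩, h2⟩
          exact ⟨h1, h2⟩
    · push Not at h
      refine ⟨A', hA'A, hA', J, e, hJ.trans (Finset.subset_insert _ _), he, ?_⟩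
      intro j hj hj' y
      rcases Finset.mem_insert.1 hj with rfl | hj
      · exact h y
      · exact hc j hj hj' y

lemma enum (F : Finset (ℕ → Bool)) : ∃ (q : ℕ) (d : ℕ → (ℕ → Bool)),
    (∀ i < q, ∀ j < q, i ≠ j → d i ≠ d j) ∧
    ∀ G : (ℕ → Bool) → D Tree, ∑ c ∈ F, G c = ∑ j ∈ Finset.range q, G (d j) := by
  classical
  refine ⟨F.card, fun j => if h : j < F.card then (F.equivFin.symm ⟨j, h⟩).1 else fun _ => false,
    ?_, ?_⟩
  · intro i hi j hj hij h
    simp only [dif_pos hi, dif_pos hj] at h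
    have h1 := F.equivFin.symm.injective (Subtype.ext h)
    exact hij (by simpa using h1)
  · intro G
    rw [Finset.sum_range, ← Finset.sum_coe_sort F, ← Equiv.sum_comp F.equivFin.symm]
    apply Finset.sum_congr rfl
    intro i _
    simp only [dif_pos i.2]

/-- The layer lemma. -/
theorem layer {A : Set (ℕ → Bool)} (hA : ¬ A.Countable) (r : (ℕ → Bool) → D Tree) {η ε : ℝ}
    (hr : ∀ c ∈ A, ‖r c‖ ≤ η) (hε : 0 < ε) :
    ∃ A' ⊆ A, ¬ A'.Countable ∧ ∃ (b : D Tree) (s : Finset ℕ) (v : ℕ → ℝ)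
      (d : ℕ → (ℕ → Bool) → (ℕ → Bool)),
      (∀ c ∈ A', ‖r c - b - ∑ j ∈ s, v j • sg (br (d j c)) 0‖ ≤ ε) ∧
      (∑ j ∈ s, v j ^ 2 ≤ η ^ 2) ∧
      (∀ j ∈ s, ∀ x, {c ∈ A' | d j c = x}.Countable) ∧
      (∀ c ∈ A', ∀ i ∈ s, ∀ j ∈ s, i ≠ j → d i c ≠ d j c) ∧
      (∀ c ∈ A', Lm (br c) b = 0) := by
  classical
  have h0 : ∀ c, ∃ (q : ℕ) (d : ℕ → (ℕ → Bool)) (g : D Tree), g ∈ B0 ∧
      (∀ i < q, ∀ j < q, i ≠ j → d i ≠ d j) ∧
      ‖r c - g - ∑ j ∈ Finset.range q, Lm (br (d j)) (r c) • sg (br (d j)) 0‖ ≤ ε / 4 := by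
    intro c
    obtain ⟨F, g, hg, hF⟩ := approx (r c) (ε := ε / 4) (by positivity)
    obtain ⟨q, d, hd, hs⟩ := enum F
    exact ⟨q, d, g, hg, hd, by rw [hs] at hF; exact hF⟩
  choose q d g hg hinj happ using h0
  obtain ⟨c0, -, hA1⟩ := pigeonC hA q
  set A1 := {c ∈ A | q c = q c0} with hA1d
  set n := q c0 with hn
  obtain ⟨c1, -, hA2⟩ := pigeon hA1 g B0_sep (fun c _ => hg c) (ρ := ε / 4) (by positivity)
  set A2 := {c ∈ A1 | dist (g c) (g c1) < ε / 4} with hA2d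
  obtain ⟨c2, hc2, hA3⟩ := pigeon hA2 (fun c => fun i : Fin n => Lm (br (d c i)) (r c))
    (S := univ) (TopologicalSpace.isSeparable_univ_iff.2 inferInstance) (fun _ _ => mem_univ _)
    (ρ := ε / (4 * (n + 1))) (by positivity)
  set A3 := {c ∈ A2 | dist (fun i : Fin n => Lm (br (d c i)) (r c))
    (fun i : Fin n => Lm (br (d c2 i)) (r c2)) < ε / (4 * (n + 1))} with hA3d
  obtain ⟨A4, hA43, hA4, J, e, hJ, he, hcto⟩ := dich hA3 (fun j c => d c j) (Finset.range n)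
  set v : ℕ → ℝ := fun j => Lm (br (d c2 j)) (r c2) with hv
  set b : D Tree := g c1 + ∑ j ∈ J, v j • sg (br (e j)) 0 with hb
  have hbc : {c | Lm (br c) b ≠ 0}.Countable := by
    have h1 := (summable_Lm_sq b).countable_support
    refine h1.mono fun c hc => ?_
    exact pow_ne_zero 2 hc
  have hA5 : ¬ {c ∈ A4 | Lm (br c) b = 0}.Countable := by
    intro hcon
    apply hA4
    refine (hcon.union hbc).mono fun c hc => ?_
    by_cases h : Lm (br c) b = 0
    · exact Or.inl ⟨hc, h⟩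
    · exact Or.inr h
  have hA3A1 : ∀ c ∈ A3, c ∈ A1 := fun c hc => hc.1.1
  refine ⟨{c ∈ A4 | Lm (br c) b = 0}, ?_, hA5, b, Finset.range n \ J, v, fun j c => d c j,
    ?_, ?_, ?_, ?_, ?_⟩
  · intro c hc
    exact (hA3A1 c (hA43 hc.1)).1
  · rintro c ⟨hc4, -⟩
    have hc3 := hA43 hc4
    have hqc : q c = n := (hA3A1 c hc3).2
    have e1 : r c - b - ∑ j ∈ Finset.range n \ J, v j • sg (br (d c j)) 0 =
        (r c - g c - ∑ j ∈ Finset.range n, Lm (br (d c j)) (r c) • sg (br (d c j)) 0) +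
        (g c - g c1) +
        ∑ j ∈ Finset.range n, (Lm (br (d c j)) (r c) - v j) • sg (br (d c j)) 0 := by
      have h1 : ∑ j ∈ Finset.range n, (Lm (br (d c j)) (r c) - v j) • sg (br (d c j)) 0 =
          ∑ j ∈ Finset.range n, Lm (br (d c j)) (r c) • sg (br (d c j)) 0 -
          ∑ j ∈ Finset.range n, v j • sg (br (d c j)) 0 := by
        rw [← Finset.sum_sub_distrib]
        exact Finset.sum_congr rfl fun j _ => by
          ext x
          simp only [_root_.sub_apply, _root_.smul_apply, smul_eq_mul]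
          ring
      have h2 : ∑ j ∈ Finset.range n, v j • sg (br (d c j)) 0 =
          ∑ j ∈ Finset.range n \ J, v j • sg (br (d c j)) 0 +
          ∑ j ∈ J, v j • sg (br (d c j)) 0 := (Finset.sum_sdiff hJ).symm
      have h3 : ∑ j ∈ J, v j • sg (br (d c j)) 0 = ∑ j ∈ J, v j • sg (br (e j)) 0 :=
        Finset.sum_congr rfl fun j hj => by rw [he j hj c hc4]
      rw [h1, h2, h3, hb]
      abel
    rw [e1]
    have n1 := happ c
    rw [hqc] at n1
    have n2 : ‖g c - g c1‖ ≤ ε / 4 := by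
      rw [← dist_eq_norm]; exact hc3.1.2.le
    have n3 : ‖∑ j ∈ Finset.range n, (Lm (br (d c j)) (r c) - v j) • sg (br (d c j)) 0‖ ≤
        ε / 4 := by
      have h1 : ∀ j ∈ Finset.range n, ‖(Lm (br (d c j)) (r c) - v j) • sg (br (d c j)) 0‖ ≤
          ε / (4 * (n + 1)) := by
        intro j hj
        have h2 := dist_le_pi_dist (fun i : Fin n => Lm (br (d c i)) (r c))
          (fun i : Fin n => Lm (br (d c2 i)) (r c2)) ⟨j, Finset.mem_range.1 hj⟩
        rw [Real.dist_eq] at h2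
        have h3 := hc3.2
        rw [norm_smul, Real.norm_eq_abs]
        exact (mul_le_of_le_one_right (abs_nonneg _) (norm_sg_le _ _)).trans (h2.trans h3.le)
      refine (norm_sum_le _ _).trans ((Finset.sum_le_sum h1).trans ?_)
      rw [Finset.sum_const, Finset.card_range, nsmul_eq_mul]
      rw [mul_div_assoc', div_le_div_iff₀ (by positivity) (by positivity)]
      nlinarith
    have n4 := norm_add_le (r c - g c -
        ∑ j ∈ Finset.range n, Lm (br (d c j)) (r c) • sg (br (d c j)) 0 + (g c - g c1))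
        (∑ j ∈ Finset.range n, (Lm (br (d c j)) (r c) - v j) • sg (br (d c j)) 0)
    have n5 := norm_add_le (r c - g c -
        ∑ j ∈ Finset.range n, Lm (br (d c j)) (r c) • sg (br (d c j)) 0) (g c - g c1)
    linarith
  · have hqc : q c2 = n := hc2.1.2
    have h1 : ∑ j ∈ Finset.range n \ J, v j ^ 2 ≤ ∑ j ∈ Finset.range n, v j ^ 2 :=
      Finset.sum_le_sum_of_subset_of_nonneg Finset.sdiff_subset fun _ _ _ => sq_nonneg _
    have h2 : ∑ j ∈ Finset.range n, v j ^ 2 =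
        ∑ x ∈ (Finset.range n).image (d c2), (Lm (br x) (r c2)) ^ 2 := by
      rw [Finset.sum_image]
      intro i hi j hj hij
      by_contra hne
      rw [Finset.mem_coe, Finset.mem_range, ← hqc] at hi hj
      exact hinj c2 i hi j hj hne hij
    refine h1.trans (h2.le.trans ((sum_Lm_sq (r c2) _).trans ?_))
    exact pow_le_pow_left₀ (norm_nonneg _) (hr c2 hc2.1.1) 2
  · intro j hj x
    rw [Finset.mem_sdiff] at hj
    refine (hcto j hj.1 hj.2 x).mono ?_
    rintro c ⟨⟨h1, -⟩, h2⟩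
    exact ⟨h1, h2⟩
  · rintro c ⟨hc4, -⟩ i hi j hj hij
    have hc3 := hA43 hc4
    have hqc : q c = n := (hA3A1 c hc3).2
    rw [Finset.mem_sdiff, Finset.mem_range, ← hqc] at hi hj
    exact hinj c i hi.1 j hj.1 hij
  · rintro c ⟨-, hc⟩
    exact hc

/-- The data attached to one stage of the construction. -/
structure St where
  /-- the uncountable set of candidates -/
  A : Set (ℕ → Bool)
  /-- the residuals -/
  r : (ℕ → Bool) → D Tree
  /-- all thread functions -/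
  T : Set ((ℕ → Bool) → (ℕ → Bool))
  /-- the constant part of the layer -/
  b : D Tree
  /-- the indices of the new threads -/
  s : Finset ℕ
  /-- the coefficients of the new threads -/
  v : ℕ → ℝ
  /-- the new threads -/
  d : ℕ → (ℕ → Bool) → (ℕ → Bool)
  /-- the chosen branch -/
  c : ℕ → Bool
  /-- the level -/
  K : ℕ

/-- The properties of a single stage. -/
structure Inv (S : St) (ε : ℝ) : Prop where
  unc : ¬ S.A.Countable
  fin : S.T.Finite
  idm : id ∈ S.T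
  cto : ∀ f ∈ S.T, ∀ x, {c ∈ S.A | f c = x}.Countable
  res : ∀ c ∈ S.A, ‖S.r c‖ ≤ ε
  dT : ∀ j ∈ S.s, S.d j ∈ S.T
  dne : ∀ c ∈ S.A, ∀ i ∈ S.s, ∀ j ∈ S.s, i ≠ j → S.d i c ≠ S.d j c
  bz : ∀ c ∈ S.A, Lm (br c) S.b = 0
  cA : S.c ∈ S.A
  cond : ∀ K, ¬ {c ∈ S.A | ∀ f ∈ S.T, br (f c) K = br (f S.c) K}.Countable

/-- The branches met at a stage. -/
def St.D (S : St) : Set (ℕ → Bool) := (fun f => f S.c) '' S.T

/-- The relation of a new stage to its source. -/
structure Rel (S : St) (A' : Set (ℕ → Bool)) (T' : Set ((ℕ → Bool) → (ℕ → Bool)))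
    (r' : (ℕ → Bool) → D Tree) (η : ℝ) (Q : Set (ℕ → Bool)) (k : ℕ) : Prop where
  sub : S.A ⊆ A'
  req : ∀ c, S.r c = r' c - S.b - ∑ j ∈ S.s, S.v j • sg (br (S.d j c)) 0
  Tsub : T' ⊆ S.T
  vsq : ∑ j ∈ S.s, S.v j ^ 2 ≤ η ^ 2
  avoid : ∀ x ∈ S.D, x ∉ Q
  klt : k < S.K
  sep : ∀ x ∈ Q ∪ S.D, ∀ y ∈ Q ∪ S.D, x ≠ y → br x S.K ≠ br y S.K

theorem step {A' : Set (ℕ → Bool)} {T' : Set ((ℕ → Bool) → (ℕ → Bool))}
    {r' : (ℕ → Bool) → D Tree} {η ε : ℝ} (hA' : ¬ A'.Countable) (hT' : T'.Finite)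
    (hid : id ∈ T') (hcto : ∀ f ∈ T', ∀ x, {c ∈ A' | f c = x}.Countable)
    (hr : ∀ c ∈ A', ‖r' c‖ ≤ η) (hε : 0 < ε) {Q : Set (ℕ → Bool)} (hQ : Q.Finite) (k : ℕ) :
    ∃ S : St, Inv S ε ∧ Rel S A' T' r' η Q k := by
  classical
  obtain ⟨A, hAA', hA, b, s, v, d, h1, h2, h3, h4, h5⟩ := layer hA' r' hr hε
  set T : Set ((ℕ → Bool) → (ℕ → Bool)) := T' ∪ d '' s with hT
  have hTfin : T.Finite := hT'.union (s.finite_toSet.image d)
  have hTc : ∀ f ∈ T, ∀ x, {c ∈ A | f c = x}.Countable := by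
    rintro f (hf | ⟨j, hj, rfl⟩) x
    · refine (hcto f hf x).mono ?_
      rintro c ⟨h1, h2⟩
      exact ⟨hAA' h1, h2⟩
    · exact h3 j hj x
  have hTf : Finite T := hTfin
  set bad1 : Set (ℕ → Bool) := ⋃ f ∈ T, ⋃ x ∈ Q, {c ∈ A | f c = x} with hbad1
  have hbad1c : bad1.Countable :=
    hTfin.countable.biUnion fun f hf => hQ.countable.biUnion fun x _ => hTc f hf x
  set π : ℕ → (ℕ → Bool) → (T → Tree) := fun K c f => br (f.1 c) K with hπ
  set bad2 : Set (ℕ → Bool) := ⋃ K, {c ∈ A | {c' ∈ A | π K c' = π K c}.Countable} with hbad2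
  have hbad2c : bad2.Countable := countable_iUnion fun K => condens A (π K)
  have hex : ∃ c ∈ A, c ∉ bad1 ∪ bad2 := by
    by_contra hcon
    push Not at hcon
    exact hA ((hbad1c.union hbad2c).mono hcon)
  obtain ⟨c, hcA, hc⟩ := hex
  rw [mem_union, not_or] at hc
  set D : Set (ℕ → Bool) := (fun f => f c) '' T with hD
  have hDfin : D.Finite := hTfin.image _
  obtain ⟨K0, hK0⟩ := exists_sep (hQ.union hDfin).toFinset
  refine ⟨⟨A, fun c => r' c - b - ∑ j ∈ s, v j • sg (br (d j c)) 0, T, b, s, v, d, c,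
    max (k + 1) K0⟩, ⟨hA, hTfin, Or.inl hid, hTc, h1, fun j hj => Or.inr ⟨j, hj, rfl⟩, h4, h5,
    hcA, ?_⟩, ⟨hAA', fun c => rfl, subset_union_left, h2, ?_, ?_, ?_⟩⟩
  · intro K hcon
    apply hc.2
    rw [hbad2]
    refine mem_iUnion.2 ⟨K, hcA, hcon.mono ?_⟩
    rintro c' ⟨hc1, hc2⟩
    exact ⟨hc1, fun f hf => congrFun hc2 ⟨f, hf⟩⟩
  · rintro x ⟨f, hf, rfl⟩ hx
    apply hc.1
    rw [hbad1]
    exact mem_iUnion₂.2 ⟨f, hf, mem_iUnion₂.2 ⟨f c, hx, hcA, rfl⟩⟩
  · exact lt_of_lt_of_le (Nat.lt_succ_self k) (le_max_left _ _)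
  · intro x hx y hy hxy
    refine br_ne_of (hK0 x ?_ y ?_ hxy) (le_max_right _ _)
    · rw [Set.Finite.mem_toFinset]; exact hx
    · rw [Set.Finite.mem_toFinset]; exact hy

end Pool.Agent.V8H50.JTB
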