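import Pool.Agent.V8H50.JTB.Facts

/-!
# The main estimates (helper file for MP_245e03_an, Q2)
-/

set_option autoImplicit false
set_option linter.unusedSectionVars false

open Set Filter Topology

namespace Pool.Agent.V8H50.JTB

open Pool.Agent.R277.JT

/-- the error bounds -/
noncomputable def eps (t : ℕ) : ℝ := 1 / 24 * (1 / 4) ^ t

lemma eps_pos (t : ℕ) : 0 < eps t := by unfold eps; positivity

lemma eps_half (t : ℕ) : eps (t / 2) ≤ 1 / 12 * (1 / 2) ^ t := by
  unfold eps
  have h1 : ((1:ℝ) / 4) ^ (t / 2) = (1 / 2) ^ (2 * (t / 2)) := by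
    rw [pow_mul]; norm_num
  have h2 : ((1:ℝ) / 2) ^ (2 * (t / 2) + 1) ≤ (1 / 2) ^ t :=
    pow_le_pow_of_le_one (by norm_num) (by norm_num) (by omega)
  rw [pow_succ] at h2
  rw [h1]
  linarith

lemma sum_eps (F : Finset ℕ) : ∑ t ∈ F, 1 / 12 * ((1:ℝ) / 2) ^ t ≤ 1 / 6 := by
  rw [← Finset.mul_sum]
  have h1 := (summable_geometric_of_lt_one (r := (1/2:ℝ)) (by norm_num) (by norm_num))
  have h2 := h1.sum_le_tsum F (fun _ _ => by positivity)
  rw [tsum_geometric_of_lt_one (by norm_num) (by norm_num)] at h2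
  norm_num at h2 ⊢
  linarith

lemma sum_eps_idx (F : Finset Tree) : ∑ a ∈ F, eps (idx a / 2) ≤ 1 / 6 := by
  classical
  calc ∑ a ∈ F, eps (idx a / 2) ≤ ∑ a ∈ F, 1 / 12 * ((1:ℝ) / 2) ^ (idx a) :=
        Finset.sum_le_sum fun a _ => eps_half _
    _ = ∑ t ∈ F.image idx, 1 / 12 * ((1:ℝ) / 2) ^ t := by
        rw [Finset.sum_image (fun a _ b _ h => idx_inj h)]
    _ ≤ 1 / 6 := sum_eps _

section main

variable {S : ℕ → St} {A0 : Set (ℕ → Bool)} {y : (ℕ → Bool) → D Tree} {M : ℝ}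

lemma sum_layers (h : Sch S eps A0 y M) (hM : 0 ≤ M) (N : ℕ) :
    ∑ s ∈ Finset.range N, √(∑ j ∈ (S s).s, (S s).v j ^ 2) ≤ M + 1 / 6 := by
  have h1 : ∀ s ∈ Finset.range N, √(∑ j ∈ (S s).s, (S s).v j ^ 2) ≤
      (if s = 0 then M else 0) + 1 / 12 * (1 / 2) ^ s := by
    intro s _
    rw [Real.sqrt_le_iff]
    cases s with
    | zero =>
      rw [if_pos rfl]
      refine ⟨by positivity, h.r0.vsq.trans ?_⟩
      exact pow_le_pow_left₀ hM (by linarith [show (0:ℝ) ≤ 1 / 12 * (1 / 2) ^ 0 by positivity]) 2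
    | succ u =>
      rw [if_neg (Nat.succ_ne_zero u), zero_add]
      refine ⟨by positivity, (h.rel u).vsq.trans ?_⟩
      exact pow_le_pow_left₀ (eps_pos _).le (eps_half _) 2
  refine (Finset.sum_le_sum h1).trans ?_
  rw [Finset.sum_add_distrib]
  have h2 := sum_eps (Finset.range N)
  have h3 : ∑ s ∈ Finset.range N, (if s = 0 then M else 0) ≤ M := by
    rw [Finset.sum_ite_eq']
    split_ifs
    · exact le_rfl
    · exact hM
  linarith

/-- The upper estimate. -/
theorem upper_main (h : Sch S eps A0 y M) (hM : 0 ≤ M) (φ : D Tree) (N : ℕ) :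
    ‖∑ a ∈ low N, φ (ev a) • zz S y (idx a)‖ ≤ (4 * M + 1) * ‖φ‖ := by
  classical
  set N' := (low N).sup idx + 1 with hN'
  have hlt : ∀ a ∈ low N, idx a < N' := fun a ha => Nat.lt_succ_of_le (Finset.le_sup (f := idx) ha)
  have e1 : ∑ a ∈ low N, φ (ev a) • zz S y (idx a) =
      ∑ a ∈ low N, φ (ev a) • er S (idx a) +
      ∑ s ∈ Finset.range N', ∑ a ∈ low N, φ (ev a) • (if Anc s (idx a / 2) then
        ∑ j ∈ (S s).s, (S s).v j •
          (sg (br ((S s).d j (S (idx a)).c)) 0 - sg (br ((S s).d j (S (idx a / 2)).c)) 0)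
        else 0) := by
    rw [Finset.sum_comm, ← Finset.sum_add_distrib]
    apply Finset.sum_congr rfl
    intro a ha
    rw [h.zz_eq (hlt a ha), smul_add, Finset.smul_sum]
  rw [e1]
  have n1 : ‖∑ a ∈ low N, φ (ev a) • er S (idx a)‖ ≤ 1 / 3 * ‖φ‖ := by
    calc _ ≤ ∑ a ∈ low N, ‖φ (ev a) • er S (idx a)‖ := norm_sum_le _ _
      _ ≤ ∑ a ∈ low N, ‖φ‖ * (2 * eps (idx a / 2)) := by
        apply Finset.sum_le_sum
        intro a _
        rw [norm_smul, Real.norm_eq_abs]
        exact mul_le_mul (abs_apply_ev_le φ a) (h.norm_er _) (norm_nonneg _) (norm_nonneg _)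
      _ = ‖φ‖ * (2 * ∑ a ∈ low N, eps (idx a / 2)) := by
        rw [← Finset.mul_sum, ← Finset.mul_sum]
      _ ≤ ‖φ‖ * (2 * (1 / 6)) := by
        apply mul_le_mul_of_nonneg_left _ (norm_nonneg _)
        linarith [sum_eps_idx (low N)]
      _ = _ := by ring
  have n2 : ‖∑ s ∈ Finset.range N', ∑ a ∈ low N, φ (ev a) • (if Anc s (idx a / 2) then
        ∑ j ∈ (S s).s, (S s).v j •
          (sg (br ((S s).d j (S (idx a)).c)) 0 - sg (br ((S s).d j (S (idx a / 2)).c)) 0)
        else 0)‖ ≤ 4 * ‖φ‖ * (M + 1 / 6) := by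
    calc _ ≤ ∑ s ∈ Finset.range N', 4 * ‖φ‖ * √(∑ j ∈ (S s).s, (S s).v j ^ 2) := by
          refine (norm_sum_le _ _).trans (Finset.sum_le_sum fun s _ => ?_)
          exact layer_upper (h.thr s) (S s).v φ N
      _ = 4 * ‖φ‖ * ∑ s ∈ Finset.range N', √(∑ j ∈ (S s).s, (S s).v j ^ 2) := by
          rw [Finset.mul_sum]
      _ ≤ _ := mul_le_mul_of_nonneg_left (sum_layers h hM N') (by positivity)
  refine (norm_add_le _ _).trans ?_
  have := norm_nonneg φ
  nlinarith

/-- The lower estimate. -/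
theorem lower_main (h : Sch S eps A0 y M) (hy : ∀ c ∈ A0, Lm (br c) (y c) = 1) (φ : D Tree)
    (N : ℕ) (hφ : φ = ∑ a ∈ low N, φ (ev a) • bio a) :
    1 / 2 * ‖φ‖ ≤ ‖∑ a ∈ low N, φ (ev a) • zz S y (idx a)‖ := by
  classical
  set N' := (low N).sup idx + 1 with hN'
  have hlt : ∀ a ∈ low N, idx a < N' := fun a ha => Nat.lt_succ_of_le (Finset.le_sup (f := idx) ha)
  set P := pushT (em S) h.em_le with hP
  have hz : ∀ a ∈ low N, (zz S y (idx a)).comp P =
      (er S (idx a)).comp P + rh S N' (idx a) • bio a := by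
    intro a ha
    rw [h.zz_eq (hlt a ha), ContinuousLinearMap.add_comp]
    congr 1
    unfold rh
    rw [Finset.sum_smul]
    have e1 : ∀ (F : Finset ℕ) (f : ℕ → D Tree), (∑ s ∈ F, f s).comp P =
        ∑ s ∈ F, (f s).comp P := by
      intro F f
      ext x
      simp [ContinuousLinearMap.comp_apply, _root_.sum_apply]
    rw [e1]
    apply Finset.sum_congr rfl
    intro s _
    split_ifs with hs
    · rw [e1, Finset.sum_smul]
      apply Finset.sum_congr rfl
      intro j hj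
      rw [ContinuousLinearMap.smul_comp, h.comp_term a hs hj, smul_smul]
    · rw [zero_smul]; rfl
  set G := ∑ a ∈ low N, φ (ev a) • zz S y (idx a) with hG
  have e2 : G.comp P - φ = ∑ a ∈ low N, φ (ev a) •
      ((er S (idx a)).comp P + (rh S N' (idx a) - 1) • bio a) := by
    have e3 : G.comp P = ∑ a ∈ low N, φ (ev a) • (zz S y (idx a)).comp P := by
      ext x
      simp [hG, ContinuousLinearMap.comp_apply, _root_.sum_apply]
    rw [e3]
    nth_rewrite 2 [hφ]
    rw [← Finset.sum_sub_distrib]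
    apply Finset.sum_congr rfl
    intro a ha
    rw [hz a ha]
    ext x
    simp only [_root_.sub_apply, _root_.add_apply, _root_.smul_apply, smul_eq_mul]
    ring
  have n1 : ‖G.comp P - φ‖ ≤ 1 / 2 * ‖φ‖ := by
    rw [e2]
    calc _ ≤ ∑ a ∈ low N, ‖φ (ev a) •
          ((er S (idx a)).comp P + (rh S N' (idx a) - 1) • bio a)‖ := norm_sum_le _ _
      _ ≤ ∑ a ∈ low N, ‖φ‖ * (3 * eps (idx a / 2)) := by
        apply Finset.sum_le_sum
        intro a ha
        rw [norm_smul, Real.norm_eq_abs]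
        apply mul_le_mul (abs_apply_ev_le φ a) _ (norm_nonneg _) (norm_nonneg _)
        have h1 : ‖(er S (idx a)).comp P‖ ≤ 2 * eps (idx a / 2) :=
          (norm_comp_pushT_le _ _ _).trans (h.norm_er _)
        have h2 : ‖(rh S N' (idx a) - 1) • bio a‖ ≤ eps (idx a / 2) := by
          rw [norm_smul, Real.norm_eq_abs]
          have h3 : ‖bio a‖ ≤ 1 := by
            apply ContinuousLinearMap.opNorm_le_bound _ zero_le_one
            intro x
            rw [one_mul, bio_apply]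
            exact val_le x a
          exact (mul_le_of_le_one_right (abs_nonneg _) h3).trans (h.rho hy (hlt a ha))
        exact (norm_add_le _ _).trans (by linarith)
      _ = ‖φ‖ * (3 * ∑ a ∈ low N, eps (idx a / 2)) := by
        rw [← Finset.mul_sum, ← Finset.mul_sum]
      _ ≤ ‖φ‖ * (3 * (1 / 6)) := by
        apply mul_le_mul_of_nonneg_left _ (norm_nonneg _)
        linarith [sum_eps_idx (low N)]
      _ = _ := by ring
  have n2 : ‖G.comp P‖ ≤ ‖G‖ := norm_comp_pushT_le _ _ G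
  have n3 : ‖φ‖ ≤ ‖G.comp P‖ + ‖G.comp P - φ‖ := by
    have := norm_sub_norm_le φ (G.comp P)
    rw [norm_sub_rev] at this
    linarith
  linarith

end main

/-- The main theorem on functionals on the finitely supported functions. -/
theorem main {R : Submodule ℝ (D Tree)}
    (hR : ¬ TopologicalSpace.IsSeparable (R : Set (D Tree))) :
    ∃ (z : Tree → D Tree) (C : ℝ), (∀ a, z a ∈ R) ∧ ∀ w : Tree →₀ ℝ,
      1 / 2 * ‖w.sum fun a t => t • bio a‖ ≤ ‖w.sum fun a t => t • z a‖ ∧
      ‖w.sum fun a t => t • z a‖ ≤ C * ‖w.sum fun a t => t • bio a‖ := by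
  classical
  obtain ⟨A0, y, M, hA0, hM, hy⟩ := family hR
  obtain ⟨S, h1, h2, h3⟩ := scheme hA0 y (M := M) (fun c hc => (hy c hc).2.1) (ε := eps) eps_pos
  have h : Sch S eps A0 y M := ⟨h1, h2, h3⟩
  refine ⟨fun a => zz S y (idx a), 4 * M + 1, ?_, ?_⟩
  · intro a
    have hA : ∀ t, (S t).c ∈ A0 := fun t => h.r0.sub (h.anc_A (anc_root t) (h.inv t).cA)
    exact R.sub_mem (hy _ (hA _)).1 (hy _ (hA _)).1
  · intro w
    set φ : D Tree := w.sum fun a t => t • bio a with hφ
    have hval : ∀ a, φ (ev a) = w a := by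
      intro a
      rw [hφ, Finsupp.sum, _root_.sum_apply]
      simp_rw [_root_.smul_apply, bio_ev, smul_eq_mul, mul_ite, mul_one, mul_zero]
      rw [Finset.sum_ite_eq]
      split_ifs with ha
      · rfl
      · exact (Finsupp.notMem_support_iff.1 ha).symm
    set N := w.support.sup lev + 1 with hN
    have hsub : w.support ⊆ low N := by
      intro a ha
      rw [mem_low]
      exact Nat.lt_succ_of_le (Finset.le_sup (f := lev) ha)
    have e1 : ∀ f : Tree → D Tree, (w.sum fun a t => t • f a) = ∑ a ∈ low N, φ (ev a) • f a := by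
      intro f
      rw [Finsupp.sum_of_support_subset w hsub (fun a t => t • f a) (fun a _ => zero_smul ℝ _)]
      exact Finset.sum_congr rfl fun a _ => by rw [hval]
    have e2 : φ = ∑ a ∈ low N, φ (ev a) • bio a := e1 bio
    rw [e1 (fun a => zz S y (idx a))]
    exact ⟨lower_main h (fun c hc => (hy c hc).2.2) φ N e2, upper_main h hM.le φ N⟩

end Pool.Agent.V8H50.JTB
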