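import Pool.Agent.V8H50.JTB.Layer

/-!
# The recursive construction (helper file for MP_245e03_an, Q2)
-/

set_option autoImplicit false
set_option linter.unusedSectionVars false

open Set Filter Topology

namespace Pool.Agent.V8H50.JTB

open Pool.Agent.R277.JT

/-- recursion with choices depending on all earlier values -/
lemma strong_choice {α : Type*} [Nonempty α] (P : ℕ → (ℕ → α) → Prop)
    (hloc : ∀ n f g, (∀ m, m ≤ n → f m = g m) → P n f → P n g)
    (h : ∀ n f, (∀ m, m < n → P m f) → ∃ a, P n (Function.update f n a)) : ∃ f, ∀ n, P n f := by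
  classical
  have hstep : ∀ n (f : {f : ℕ → α // ∀ m, m < n → P m f}),
      ∃ f' : {f : ℕ → α // ∀ m, m < n + 1 → P m f}, ∀ m, m < n → f'.1 m = f.1 m := by
    rintro n ⟨f, hf⟩
    obtain ⟨a, ha⟩ := h n f hf
    refine ⟨⟨Function.update f n a, fun m hm => ?_⟩, fun m hm => ?_⟩
    · rcases Nat.lt_succ_iff_lt_or_eq.1 hm with h1 | rfl
      · refine hloc m f _ (fun m' hm' => ?_) (hf m h1)
        rw [Function.update_of_ne (by omega)]
      · exact ha
    · exact Function.update_of_ne (by omega) _ _
  choose nx hnx using hstep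
  let F : ∀ n, {f : ℕ → α // ∀ m, m < n → P m f} := fun n =>
    Nat.rec ⟨fun _ => Classical.arbitrary α, fun m hm => absurd hm (Nat.not_lt_zero m)⟩
      (fun n f => nx n f) n
  have hF : ∀ n, F (n + 1) = nx n (F n) := fun n => rfl
  have key : ∀ n m, m < n → (F n).1 m = (F (m + 1)).1 m := by
    intro n
    induction n with
    | zero => intro m hm; omega
    | succ n ih =>
      intro m hm
      rcases Nat.lt_succ_iff_lt_or_eq.1 hm with h1 | rfl
      · rw [hF n, hnx n (F n) m h1, ih m h1]
      · rfl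
  refine ⟨fun n => (F (n + 1)).1 n, fun n => ?_⟩
  exact hloc n (F (n + 1)).1 _ (fun m hm => key (n + 1) m (by omega))
    ((F (n + 1)).2 n (Nat.lt_succ_self n))

/-- The set of candidates for stage `t + 1`. -/
def src (S : ℕ → St) (t : ℕ) : Set (ℕ → Bool) :=
  {c ∈ (S ((t + 1) / 2)).A | ∀ f ∈ (S ((t + 1) / 2)).T,
    br (f c) (S t).K = br (f (S ((t + 1) / 2)).c) (S t).K}

/-- The branches met up to stage `t`. -/
def Qs (S : ℕ → St) (t : ℕ) : Set (ℕ → Bool) := ⋃ u ∈ Finset.range (t + 1), (S u).D

/-- The relation between the stages. -/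
def RelS (S : ℕ → St) (ε : ℕ → ℝ) (t : ℕ) : Prop :=
  Rel (S (t + 1)) (src S t) (S ((t + 1) / 2)).T (S ((t + 1) / 2)).r (ε ((t + 1) / 2)) (Qs S t)
    (S t).K

lemma RelS_congr {S S' : ℕ → St} {ε : ℕ → ℝ} {t : ℕ} (h : ∀ m, m ≤ t + 1 → S m = S' m)
    (hR : RelS S ε t) : RelS S' ε t := by
  unfold RelS at *
  have h1 : src S t = src S' t := by
    unfold src
    rw [h ((t + 1) / 2) (by omega), h t (by omega)]
  have h2 : Qs S t = Qs S' t := by
    unfold Qs
    refine iUnion₂_congr fun u hu => ?_
    rw [Finset.mem_range] at hu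
    rw [h u (by omega)]
  rw [← h1, ← h2, ← h (t + 1) le_rfl, ← h ((t + 1) / 2) (by omega), ← h t (by omega)]
  exact hR

/-- The construction. -/
theorem scheme {A0 : Set (ℕ → Bool)} (hA0 : ¬ A0.Countable) (y : (ℕ → Bool) → D Tree) {M : ℝ}
    (hM : ∀ c ∈ A0, ‖y c‖ ≤ M) {ε : ℕ → ℝ} (hε : ∀ n, 0 < ε n) :
    ∃ S : ℕ → St, (∀ t, Inv (S t) (ε t)) ∧ Rel (S 0) A0 {id} y M ∅ 0 ∧ ∀ t, RelS S ε t := by
  classical
  obtain ⟨S0, hS0, hR0⟩ := step (A' := A0) (T' := {id}) (r' := y) (η := M) (ε := ε 0) hA0
    (finite_singleton _) (mem_singleton _) (by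
      rintro f hf x
      rw [mem_singleton_iff] at hf
      subst hf
      refine (countable_singleton x).mono ?_
      rintro c ⟨-, hc⟩
      exact hc) hM (hε 0) (Q := ∅) finite_empty 0
  let P : ℕ → (ℕ → St) → Prop := fun n f =>
    match n with
    | 0 => f 0 = S0
    | t + 1 => Inv (f (t + 1)) (ε (t + 1)) ∧ RelS f ε t
  have : Nonempty St := ⟨S0⟩
  have hloc : ∀ n f g, (∀ m, m ≤ n → f m = g m) → P n f → P n g := by
    intro n f g hfg hP
    cases n with
    | zero => exact (hfg 0 le_rfl).symm.trans hP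
    | succ t =>
      obtain ⟨h1, h2⟩ := hP
      exact ⟨hfg (t + 1) le_rfl ▸ h1, RelS_congr hfg h2⟩
  have hst : ∀ n f, (∀ m, m < n → P m f) → ∃ a, P n (Function.update f n a) := by
    intro n f hf
    cases n with
    | zero =>
      exact ⟨S0, Function.update_self _ _ _⟩
    | succ t =>
      have hInv : ∀ m, m < t + 1 → Inv (f m) (ε m) := by
        intro m hm
        cases m with
        | zero => have h : f 0 = S0 := hf 0 hm; rw [h]; exact hS0
        | succ m => exact (hf (m + 1) hm).1
      have hp := hInv ((t + 1) / 2) (by omega)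
      have hQ : (Qs f t).Finite := by
        unfold Qs
        refine Set.Finite.biUnion (Finset.finite_toSet _) fun u hu => ?_
        rw [Finset.mem_coe, Finset.mem_range] at hu
        exact (hInv u hu).fin.image _
      obtain ⟨S, hS1, hS2⟩ := step (A' := src f t) (T' := (f ((t + 1) / 2)).T)
        (r' := (f ((t + 1) / 2)).r) (η := ε ((t + 1) / 2)) (ε := ε (t + 1))
        (hp.cond _) hp.fin hp.idm (by
          intro g hg x
          refine (hp.cto g hg x).mono ?_
          rintro c ⟨⟨h1, -⟩, h2⟩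
          exact ⟨h1, h2⟩) (fun c hc => hp.res c hc.1) (hε _) hQ (f t).K
      have hup : ∀ m, m ≤ t → Function.update f (t + 1) S m = f m := fun m hm =>
        Function.update_of_ne (by omega) _ _
      refine ⟨S, ?_, ?_⟩
      · rw [Function.update_self]; exact hS1
      · have e1 : src (Function.update f (t + 1) S) t = src f t := by
          unfold src
          rw [hup ((t + 1) / 2) (by omega), hup t le_rfl]
        have e2 : Qs (Function.update f (t + 1) S) t = Qs f t := by
          unfold Qs
          refine iUnion₂_congr fun u hu => ?_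
          rw [Finset.mem_range] at hu
          rw [hup u (by omega)]
        unfold RelS
        rw [e1, e2, hup ((t + 1) / 2) (by omega), hup t le_rfl, Function.update_self]
        exact hS2
  obtain ⟨S, hS⟩ := strong_choice P hloc hst
  refine ⟨S, ?_, ?_, ?_⟩
  · intro t
    cases t with
    | zero => have h : S 0 = S0 := hS 0; rw [h]; exact hS0
    | succ t => exact (hS (t + 1)).1
  · have h : S 0 = S0 := hS 0; rw [h]; exact hR0
  · intro t; exact (hS (t + 1)).2

end Pool.Agent.V8H50.JTB
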