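import Pool.Agent.V8H50.JTB.Index

/-!
# The upper estimate for one layer (helper file for MP_245e03_an, Q2)
-/

set_option autoImplicit false
set_option linter.unusedSectionVars false

open Set Filter Topology

namespace Pool.Agent.V8H50.JTB

open Pool.Agent.R277.JT

/-- from families to norms -/
lemma sum_sq_of_fam {ι I' : Type*} [PartialOrder I'] (s : Finset ι) (y : ι → Pre I') {R : ℝ}
    (key : ∀ P : ι → Finset (Finset I'), (∀ i ∈ s, IsFam (P i)) →
      ∑ i ∈ s, ∑ S ∈ P i, (ss S (y i)) ^ 2 ≤ R) :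
    ∑ i ∈ s, ‖y i‖ ^ 2 ≤ R := by
  classical
  apply le_of_forall_pos_le_add
  intro ε hε
  have hch : ∀ i, ∃ P : Finset (Finset I'), IsFam P ∧
      ‖y i‖ ^ 2 - ε / (s.card + 1) ≤ ∑ S ∈ P, (ss S (y i)) ^ 2 := by
    intro i
    by_contra hcon
    push Not at hcon
    have h0 : 0 ≤ ‖y i‖ ^ 2 - ε / (s.card + 1) := by
      have := hcon ∅ ⟨by simp, by simp⟩
      rw [Finset.sum_empty] at this
      exact this.le
    have h2 : ‖y i‖ ≤ √(‖y i‖ ^ 2 - ε / (s.card + 1)) := by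
      apply norm_le_of (Real.sqrt_nonneg _)
      intro P hP
      rw [Real.sq_sqrt h0]
      exact (hcon P hP).le
    have h3 : ‖y i‖ ^ 2 ≤ ‖y i‖ ^ 2 - ε / (s.card + 1) := by
      calc ‖y i‖ ^ 2 ≤ (√(‖y i‖ ^ 2 - ε / (s.card + 1))) ^ 2 :=
            pow_le_pow_left₀ (norm_nonneg _) h2 2
        _ = _ := Real.sq_sqrt h0
    have h4 : 0 < ε / ((s.card : ℝ) + 1) := by positivity
    linarith
  choose P hP1 hP2 using hch
  have h1 := key P (fun i _ => hP1 i)
  have h2 : ∑ i ∈ s, (‖y i‖ ^ 2 - ε / (s.card + 1)) ≤ R :=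
    (Finset.sum_le_sum fun i _ => hP2 i).trans h1
  rw [Finset.sum_sub_distrib, Finset.sum_const, nsmul_eq_mul] at h2
  have h3 : (s.card : ℝ) * (ε / (s.card + 1)) ≤ ε := by
    rw [mul_div_assoc', div_le_iff₀ (by positivity)]
    nlinarith
  linarith

lemma br_eq_of {e e' : ℕ → Bool} {m n : ℕ} (h : br e n = br e' n) (hmn : m ≤ n) :
    br e m = br e' m := by
  by_contra hne
  exact br_ne_of hne hmn h

lemma sp_congr {e e' : ℕ → Bool} {k : ℕ} (h : br e k = br e' k) :
    sp (br e) 0 k = sp (br e') 0 k := by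
  classical
  ext x
  rw [sp_apply, sp_apply]
  congr 1
  unfold pc
  apply Finset.image_congr
  intro n hn
  rw [Finset.mem_coe, Finset.mem_Ico] at hn
  exact br_eq_of h hn.2.le

/-- The threads of one layer. -/
structure Thr (E : ℕ → ℕ → (ℕ → Bool)) (J : Finset ℕ) (K : ℕ → ℕ) (s : ℕ) : Prop where
  mono : StrictMono K
  agree : ∀ t, Anc s ((t + 1) / 2) → ∀ j ∈ J,
    br (E j (t + 1)) (K t) = br (E j ((t + 1) / 2)) (K t)
  ne : ∀ t t', Anc s t → Anc s t' → ∀ j ∈ J, ∀ j' ∈ J, (t ≠ t' ∨ j ≠ j') →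
    ∀ n, K t ≤ n → K t' ≤ n → br (E j t) n ≠ br (E j' t') n

/-- Chains of numbers with smallest element `β`. -/
structure Chain (s : ℕ) (X : Set ℕ) (β : ℕ) : Prop where
  anc : ∀ t ∈ X, Anc s (t / 2)
  pos : ∀ t ∈ X, 1 ≤ t
  le : ∀ t ∈ X, β ≤ t
  half : ∀ t ∈ X, t ≠ β → t / 2 ∈ X

section thr

variable {E : ℕ → ℕ → (ℕ → Bool)} {J : Finset ℕ} {K : ℕ → ℕ} {s : ℕ}

lemma disjB (h : Thr E J K s) : ∀ (N : ℕ) (X X' : Set ℕ) (β β' j j' t t' : ℕ), Chain s X β →
    Chain s X' β' → j ∈ J → j' ∈ J → (j ≠ j' ∨ Disjoint X X') → t ∈ X → t' ∈ X' → t + t' = N →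
    ∀ q, K β ≤ q → K β' ≤ q → br (E j t) q ≠ br (E j' t') q := by
  intro N
  induction N using Nat.strong_induction_on with
  | _ N ih =>
    intro X X' β β' j j' t t' hX hX' hj hj' hor ht ht' hN q hq hq'
    wlog hle : t ≤ t' generalizing X X' β β' j j' t t'
    · refine (this X' X β' β j' j t' t hX' hX hj' hj ?_ ht' ht (by omega) hq' hq (by omega)).symm
      rcases hor with h1 | h1
      · exact Or.inl h1.symm
      · exact Or.inr h1.symm
    have hne : t ≠ t' ∨ j ≠ j' := by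
      rcases hor with h1 | h1
      · exact Or.inr h1
      · left
        rintro rfl
        exact Set.disjoint_left.1 h1 ht ht'
    by_cases hqt : K t' ≤ q
    · exact h.ne t t' (Anc.step _ (hX.anc t ht)) (Anc.step _ (hX'.anc t' ht')) j hj j' hj' hne q
        ((h.mono.monotone hle).trans hqt) hqt
    · have hβ' : t' ≠ β' := fun h1 => hqt (h1 ▸ hq')
      have h2 := hX'.half t' ht' hβ'
      have hpos := hX'.pos t' ht'
      obtain ⟨u, rfl⟩ : ∃ u, t' = u + 1 := ⟨t' - 1, by omega⟩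
      have hβu : β ≤ u := by
        have h3 := hX.le t ht
        rcases Nat.lt_or_ge u β with h4 | h4
        · exfalso
          have h5 : β = u + 1 := by omega
          exact hqt (h5 ▸ hq)
        · exact h4
      have hβ'u : β' ≤ u := by
        have := hX'.le _ h2
        omega
      have hmin1 : K β ≤ min q (K u) := le_min hq (h.mono.monotone hβu)
      have hmin2 : K β' ≤ min q (K u) := le_min hq' (h.mono.monotone hβ'u)
      have h3 := ih (t + (u + 1) / 2) (by omega) X X' β β' j j' t ((u + 1) / 2) hX hX' hj hj' hor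
        ht h2 rfl (min q (K u)) hmin1 hmin2
      have h4 := br_eq_of (h.agree u (hX'.anc _ ht') j' hj') (min_le_right q (K u))
      rw [← h4] at h3
      exact br_ne_of h3 (min_le_left _ _)

/-- the numbers of the nodes of a piece of a branch -/
def Xs (c : ℕ → Bool) (m l : ℕ) : Set ℕ := {t | ∃ n, m ≤ n ∧ n ≤ l ∧ t = nu c (n + 1)}

lemma chain_Xs {c : ℕ → Bool} {m l : ℕ} (ha : Anc s (nu c m)) :
    Chain s (Xs c m l) (nu c (m + 1)) := by
  constructor
  · rintro t ⟨n, hn1, -, rfl⟩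
    rw [nu_half]
    exact anc_nu hn1 ha
  · rintro t ⟨n, hn1, -, rfl⟩
    exact nu_pos c n
  · rintro t ⟨n, hn1, -, rfl⟩
    exact (nu_mono c).monotone (by omega)
  · rintro t ⟨n, hn1, hn2, rfl⟩ hne
    rw [nu_half]
    have h1 : m ≠ n := fun h => hne (by rw [h])
    obtain ⟨n', rfl⟩ : ∃ n', n = n' + 1 := ⟨n - 1, by omega⟩
    exact ⟨n', by omega, by omega, rfl⟩

lemma agree_nu (h : Thr E J K s) {c : ℕ → Bool} {m n : ℕ} (hmn : m ≤ n) (ha : Anc s (nu c m))
    {j : ℕ} (hj : j ∈ J) : br (E j (nu c n)) (K (nu c m)) = br (E j (nu c m)) (K (nu c m)) := by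
  induction n, hmn using Nat.le_induction with
  | base => rfl
  | succ n hmn ih =>
    rw [← ih]
    have h1 := nu_pos c n
    obtain ⟨u, hu⟩ : ∃ u, nu c (n + 1) = u + 1 := ⟨nu c (n + 1) - 1, by omega⟩
    have h2 := nu_half c n
    rw [hu] at h2
    have h3 := h.agree u (by rw [h2]; exact anc_nu hmn ha) j hj
    rw [h2] at h3
    rw [hu]
    refine br_eq_of h3 (h.mono.monotone ?_)
    have h4 := nu_lt c n
    have h5 := (nu_mono c).monotone hmn
    omega

lemma agree_base (h : Thr E J K s) {c : ℕ → Bool} {m n : ℕ} (hmn : m < n) (ha : Anc s (nu c m))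
    {j : ℕ} (hj : j ∈ J) :
    br (E j (nu c n)) (K (nu c (m + 1) - 1)) = br (E j (nu c m)) (K (nu c (m + 1) - 1)) := by
  have h1 := nu_pos c m
  obtain ⟨u, hu⟩ : ∃ u, nu c (m + 1) = u + 1 := ⟨nu c (m + 1) - 1, by omega⟩
  have h2 := nu_half c m
  have h3 := agree_nu h (c := c) (m := m + 1) (n := n) hmn (anc_nu (Nat.le_succ m) ha) hj
  rw [hu] at h2 h3 ⊢
  have h4 := h.agree u (by rw [h2]; exact ha) j hj
  rw [h2] at h4
  simp only [Nat.add_sub_cancel]
  rw [← h4]
  exact br_eq_of h3 (h.mono.monotone (Nat.le_succ u))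

/-- decomposition of the difference of the branch functionals -/
lemma decomp (h : Thr E J K s) {c : ℕ → Bool} {m l : ℕ} (hml : m ≤ l) (ha : Anc s (nu c m))
    {j : ℕ} (hj : j ∈ J) (x : Pre Tree) :
    sg (br (E j (nu c (l + 1)))) 0 x - sg (br (E j (nu c m))) 0 x =
      ss (pc (br (E j (nu c (l + 1)))) (K (nu c (m + 1) - 1)) (K (nu c (m + 1)))) x +
      sg (br (E j (nu c (l + 1)))) (K (nu c (m + 1))) x -
      sg (br (E j (nu c m))) (K (nu c (m + 1) - 1)) x := by
  have h1 := agree_base h (n := l + 1) (Nat.lt_succ_of_le hml) ha hj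
  have h2 := DFunLike.congr_fun (sp_congr h1) x
  have h3 := DFunLike.congr_fun (sg_sub (σ := br (E j (nu c (l + 1))))
    (Nat.zero_le (K (nu c (m + 1) - 1)))) x
  have h4 := DFunLike.congr_fun (sg_sub (σ := br (E j (nu c m)))
    (Nat.zero_le (K (nu c (m + 1) - 1)))) x
  have h5 := DFunLike.congr_fun (sg_sub (σ := br (E j (nu c (l + 1))))
    (h.mono.monotone (Nat.sub_le (nu c (m + 1)) 1))) x
  rw [_root_.sub_apply] at h3 h4 h5
  rw [sp_apply _ _ x] at h5
  linarith

end thr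

end Pool.Agent.V8H50.JTB
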